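import Pool.Agent.Work.MP_4a1422_co.Pair

/-!
Every set outside the family which is not exceptional creates a copy of `Nine`.
-/

namespace Pool.Agent.Saturation

open Elt

variable {E : Type*} {π : E → ℕ × ℕ} {m m' : ℕ}

theorem univ_of_rows (h : Grid π m m') {G : Set E} (hf : ∀ a < m, toSet π (R a) ⊆ G) :
    G = Set.univ :=
  Set.eq_univ_of_forall fun z => hf _ (h.fst_lt z) (by simp [toSet, cell])

theorem empty_of_rows (h : Grid π m m') {G : Set E} (hf : ∀ a < m, G ⊆ toSet π (S a)) :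
    G = ∅ := by
  refine Set.eq_empty_of_forall_notMem fun z hz => ?_
  have := hf _ (h.fst_lt z) hz
  simp [toSet, cell] at this

/-- among the rows there are two further ones without `Q`, if at most one row has `Q` -/
theorem pick {m : ℕ} (hm : 5 ≤ m) (Q : ℕ → Prop)
    (hQ : ∀ a a', a < m → a' < m → a ≠ a' → Q a → Q a' → False) (z : ℕ) :
    ∃ x y, x < m ∧ y < m ∧ x ≠ y ∧ x ≠ z ∧ y ≠ z ∧ ¬ Q x ∧ ¬ Q y := by
  have key : ∀ r₁ r₂ r₃ : ℕ, r₁ < m → r₂ < m → r₃ < m → r₁ ≠ r₂ → r₁ ≠ r₃ → r₂ ≠ r₃ →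
      r₁ ≠ z → r₂ ≠ z → r₃ ≠ z →
      ∃ x y, x < m ∧ y < m ∧ x ≠ y ∧ x ≠ z ∧ y ≠ z ∧ ¬ Q x ∧ ¬ Q y := by
    intro r₁ r₂ r₃ h1 h2 h3 h12 h13 h23 hz1 hz2 hz3
    by_cases q1 : Q r₁
    · exact ⟨r₂, r₃, h2, h3, h23, hz2, hz3, fun q => hQ _ _ h1 h2 h12 q1 q,
        fun q => hQ _ _ h1 h3 h13 q1 q⟩
    · by_cases q2 : Q r₂
      · exact ⟨r₁, r₃, h1, h3, h13, hz1, hz3, q1, fun q => hQ _ _ h2 h3 h23 q2 q⟩
      · exact ⟨r₁, r₂, h1, h2, h12, hz1, hz2, q1, q2⟩
  by_cases h0 : z = 0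
  · exact key 1 2 3 (by omega) (by omega) (by omega) (by omega) (by omega) (by omega)
      (by omega) (by omega) (by omega)
  · by_cases h1 : z = 1
    · exact key 0 2 3 (by omega) (by omega) (by omega) (by omega) (by omega) (by omega)
        (by omega) (by omega) (by omega)
    · by_cases h2 : z = 2
      · exact key 0 1 3 (by omega) (by omega) (by omega) (by omega) (by omega) (by omega)
          (by omega) (by omega) (by omega)
      · exact key 0 1 2 (by omega) (by omega) (by omega) (by omega) (by omega) (by omega)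
          (by omega) (by omega) (by omega)

/-- no column is full or missed -/
theorem case1 (h : Grid π m m') {G : Set E} (hG : G ∉ Fam π m m')
    (hC : ∀ b < m', ¬ toSet π (C b) ⊆ G ∧ ¬ G ⊆ toSet π (D b)) :
    HasCopy Nine (insert G (Fam π m m')) ∨
      ∃ z < m, G ⊆ toSet π (R z) ∨ toSet π (S z) ⊆ G := by
  have hm := h.hm
  have hm' := h.hm'
  by_cases hf : ∃ a a', a < m ∧ a' < m ∧ a ≠ a' ∧ toSet π (R a) ⊆ G ∧ toSet π (R a') ⊆ G
  · obtain ⟨a, a', ha, ha', haa, hfa, hfa'⟩ := hf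
    by_cases hn : ∃ c c', c < m ∧ c' < m ∧ c ≠ c' ∧ ¬ toSet π (R c) ⊆ G ∧ ¬ toSet π (R c') ⊆ G
    · obtain ⟨c, c', hc, hc', hcc, hfc, hfc'⟩ := hn
      exact Or.inl (case1b h hG (show 0 < m' by omega) (show 1 < m' by omega) (by omega)
        (hC 0 (by omega)).1 (hC 1 (by omega)).1 ha ha' hc hc' haa hcc hfa hfa' hfc hfc')
    · right
      have : ∃ z < m, ¬ toSet π (R z) ⊆ G := by
        by_contra hcon
        push Not at hcon
        exact hG (Or.inr (Or.inl (univ_of_rows h hcon)))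
      obtain ⟨z, hz, hfz⟩ := this
      refine ⟨z, hz, Or.inr ((S_sub_iff h).2 fun c hc hcz => ?_)⟩
      by_contra hfc
      exact hn ⟨c, z, hc, hz, hcz, hfc, hfz⟩
  · have hf' : ∀ a a', a < m → a' < m → a ≠ a' → toSet π (R a) ⊆ G →
        toSet π (R a') ⊆ G → False := fun a a' ha ha' haa h1 h2 =>
      hf ⟨a, a', ha, ha', haa, h1, h2⟩
    by_cases hh : ∃ z < m, ¬ toSet π (R z) ⊆ G ∧ ¬ G ⊆ toSet π (S z)
    · obtain ⟨z, hz, hfz, hmz⟩ := hh
      by_cases hGz : G ⊆ toSet π (R z)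
      · exact Or.inr ⟨z, hz, Or.inl hGz⟩
      · obtain ⟨x, y, hx, hy, hxy, hxz, hyz, hfx, hfy⟩ :=
          pick hm (fun a => toSet π (R a) ⊆ G) hf' z
        exact Or.inl (case1a h hG hC hx hy hz hxy hxz hyz hfz hmz hfx hfy hGz)
    · push Not at hh
      exfalso
      by_cases he : ∃ a < m, toSet π (R a) ⊆ G
      · obtain ⟨a, ha, hfa⟩ := he
        have : G ⊆ toSet π (R a) := (sub_R_iff h).2 fun c hc hca =>
          hh c hc fun hfc => hf' _ _ hc ha hca hfc hfa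
        exact hG (Or.inr (Or.inr ⟨R a, ha, Set.Subset.antisymm this hfa⟩))
      · push Not at he
        exact hG (Or.inl (empty_of_rows h fun a ha => hh a ha (he a ha)))

theorem sub_compl_iff' {G : Set E} {e : Elt} : Gᶜ ⊆ toSet π e ↔ toSet π (co e) ⊆ G := by
  rw [toSet_co, Set.compl_subset_comm]

theorem compl_sub_iff' {G : Set E} {e : Elt} : toSet π e ⊆ Gᶜ ↔ G ⊆ toSet π (co e) := by
  rw [toSet_co, Set.subset_compl_comm]

/-- exactly one row is not full, and some column is full -/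
theorem case3one (h : Grid π m m')
    (hs : ∀ z w, π z = π w → ((π z).1 = 0 ∨ (π z).2 = 0) → z = w)
    {G : Set E} (hG : G ∉ Fam π m m')
    {d : ℕ} (hd : d < m) (hSd : toSet π (S d) ⊆ G) (hfd : ¬ toSet π (R d) ⊆ G)
    {b : ℕ} (hb : b < m') (hfb : toSet π (C b) ⊆ G) :
    HasCopy Nine (insert G (Fam π m m')) := by
  have hm := h.hm
  have hm' := h.hm'
  by_cases h3 : ∃ x y z, x < m' ∧ y < m' ∧ z < m' ∧ x ≠ y ∧ x ≠ z ∧ y ≠ z ∧
      ¬ toSet π (C z) ⊆ G ∧ ¬ toSet π (C x) ⊆ G ∧ ¬ toSet π (C y) ⊆ G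
  · obtain ⟨x, y, z, hx, hy, hz, hxy, hxz, hyz, hfz, hfx, hfy⟩ := h3
    exact case3ii h hG hd hSd hfd hb hfb hx hy hz hxy hxz hyz hfz hfx hfy
  · have hex : ∃ c < m', ¬ toSet π (C c) ⊆ G := by
      by_contra hcon
      push Not at hcon
      apply hG
      right; left
      exact Set.eq_univ_of_forall fun z => hcon _ (h.snd_lt z) (by simp [toSet, cell])
    obtain ⟨c, hc, hfc⟩ := hex
    by_cases h2 : ∃ c' < m', c' ≠ c ∧ ¬ toSet π (C c') ⊆ G
    · obtain ⟨c', hc', hcc, hfc'⟩ := h2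
      apply dual
      refine rowpair h hs (fun hh => hG (compl_mem_iff.1 hh)) hd (sub_compl_iff'.2 hSd)
        hc hc' (Ne.symm hcc) (fun hh => hfc (sub_compl_iff'.1 hh))
        (fun hh => hfc' (sub_compl_iff'.1 hh)) ?_
      intro k hk hkc hkc'
      rw [sub_compl_iff']
      by_contra hfk
      exact h3 ⟨c, c', k, hc, hc', hk, Ne.symm hcc, Ne.symm hkc, Ne.symm hkc', hfk, hfc, hfc'⟩
    · push Not at h2
      exact case3iii h hG hd hSd hfd hc ((D_sub_iff h).2 fun k hk hkc => h2 k hk hkc) hfc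

/-- some row and some column are full -/
theorem case3 (h : Grid π m m')
    (hs : ∀ z w, π z = π w → ((π z).1 = 0 ∨ (π z).2 = 0) → z = w)
    {G : Set E} (hG : G ∉ Fam π m m')
    {a : ℕ} (ha : a < m) (hfa : toSet π (R a) ⊆ G)
    {b : ℕ} (hb : b < m') (hfb : toSet π (C b) ⊆ G) :
    HasCopy Nine (insert G (Fam π m m')) := by
  have hm := h.hm
  have hm' := h.hm'
  have hmC : ∀ b < m', ¬ G ⊆ toSet π (D b) := fun b hb hh => fR_mC h ha hb hfa hh
  have hmR : ∀ a < m, ¬ G ⊆ toSet π (S a) := fun a ha hh => fC_mR h ha hb hfb hh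
  have hexR : ∃ c < m, ¬ toSet π (R c) ⊆ G := by
    by_contra hcon
    push Not at hcon
    exact hG (Or.inr (Or.inl (univ_of_rows h hcon)))
  have hexC : ∃ c < m', ¬ toSet π (C c) ⊆ G := by
    by_contra hcon
    push Not at hcon
    apply hG
    right; left
    exact Set.eq_univ_of_forall fun z => hcon _ (h.snd_lt z) (by simp [toSet, cell])
  obtain ⟨c, hc, hfc⟩ := hexR
  obtain ⟨u, hu, hfu⟩ := hexC
  by_cases hR : ∃ c' < m, c' ≠ c ∧ ¬ toSet π (R c') ⊆ G
  · obtain ⟨c', hc', hcc, hfc'⟩ := hR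
    by_cases hC : ∃ u' < m', u' ≠ u ∧ ¬ toSet π (C u') ⊆ G
    · obtain ⟨u', hu', huu, hfu'⟩ := hC
      by_cases hf : ∃ a' < m, a' ≠ a ∧ toSet π (R a') ⊆ G
      · obtain ⟨a', ha', haa, hfa'⟩ := hf
        exact case1b h hG hu hu' (Ne.symm huu) hfu hfu' ha ha' hc hc' (Ne.symm haa)
          (Ne.symm hcc) hfa hfa' hfc hfc'
      · have hf' : ∀ r < m, r ≠ a → ¬ toSet π (R r) ⊆ G := fun r hr hra hfr =>
          hf ⟨r, hr, hra, hfr⟩
        obtain ⟨x, y, hx, hy, hxy, hxc, hyc, hfx, hfy⟩ :=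
          pick hm (fun r => toSet π (R r) ⊆ G) (fun r r' hr hr' hrr h1 h2 => by
            by_cases e1 : r = a
            · exact hf' r' hr' (by omega) h2
            · exact hf' r hr e1 h1) c
        exact case3i h hG hmR hmC hu hu' (Ne.symm huu) hfu hfu' hx hy hc hxy hxc hyc hfc
          hfx hfy
    · -- exactly one column is not full
      push Not at hC
      have hDu : toSet π (D u) ⊆ G := (D_sub_iff h).2 fun k hk hku => hC k hk hku
      have h' := h.swap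
      have hG' : G ∉ Fam (Prod.swap ∘ π) m' m := by rwa [Fam_swap]
      have := case3one (π := Prod.swap ∘ π) h'
        (fun z w hzw ho => hs z w (Prod.swap_injective hzw) (Or.comm.1 ho)) hG' hu
        (d := u) (by rw [show S u = sw (D u) from rfl, toSet_sw]; exact hDu)
        (by rw [show R u = sw (C u) from rfl, toSet_sw]; exact hfu) ha
        (by rw [show C a = sw (R a) from rfl, toSet_sw]; exact hfa)
      rwa [Fam_swap] at this
  · push Not at hR
    exact case3one h hs hG hc ((S_sub_iff h).2 fun k hk hkc => hR k hk hkc) hfc hb hfb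

/-- The exceptional sets. -/
def Exc (π : E → ℕ × ℕ) (m m' : ℕ) (G : Set E) : Prop :=
  ((∀ b < m', ¬ toSet π (C b) ⊆ G ∧ ¬ G ⊆ toSet π (D b)) ∧
    ∃ z < m, G ⊆ toSet π (R z) ∨ toSet π (S z) ⊆ G) ∨
  ((∀ a < m, ¬ toSet π (R a) ⊆ G ∧ ¬ G ⊆ toSet π (S a)) ∧
    ∃ z < m', G ⊆ toSet π (C z) ∨ toSet π (D z) ⊆ G)

theorem forms_or_exc (h : Grid π m m')
    (hs : ∀ z w, π z = π w → ((π z).1 = 0 ∨ (π z).2 = 0) → z = w)
    {G : Set E} (hG : G ∉ Fam π m m') :
    HasCopy Nine (insert G (Fam π m m')) ∨ Exc π m m' G := by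
  by_cases h1 : ∀ b < m', ¬ toSet π (C b) ⊆ G ∧ ¬ G ⊆ toSet π (D b)
  · rcases case1 h hG h1 with h2 | h2
    · exact Or.inl h2
    · exact Or.inr (Or.inl ⟨h1, h2⟩)
  · by_cases h2 : ∀ a < m, ¬ toSet π (R a) ⊆ G ∧ ¬ G ⊆ toSet π (S a)
    · have h' := h.swap
      have hG' : G ∉ Fam (Prod.swap ∘ π) m' m := by rwa [Fam_swap]
      rcases case1 (π := Prod.swap ∘ π) h' hG' (fun a ha => by
        rw [show C a = sw (R a) from rfl, show D a = sw (S a) from rfl, toSet_sw, toSet_sw]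
        exact h2 a ha) with h3 | h3
      · rw [Fam_swap] at h3
        exact Or.inl h3
      · refine Or.inr (Or.inr ⟨h2, ?_⟩)
        obtain ⟨z, hz, h4⟩ := h3
        rw [show R z = sw (C z) from rfl, show S z = sw (D z) from rfl, toSet_sw,
          toSet_sw] at h4
        exact ⟨z, hz, h4⟩
    · push Not at h1 h2
      obtain ⟨b, hb, hb'⟩ := h1
      obtain ⟨a, ha, ha'⟩ := h2
      left
      by_cases hfb : toSet π (C b) ⊆ G
      · have hfa : toSet π (R a) ⊆ G := by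
          by_contra hcon
          exact fC_mR h ha hb hfb (ha' hcon)
        exact case3 h hs hG ha hfa hb hfb
      · have hmb := hb' hfb
        have hfa : ¬ toSet π (R a) ⊆ G := fun hh => fR_mC h ha hb hh hmb
        have hma := ha' hfa
        apply dual
        exact case3 h hs (fun hh => hG (compl_mem_iff.1 hh)) ha (compl_sub_iff'.2 hma) hb
          (compl_sub_iff'.2 hmb)

end Pool.Agent.Saturation
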