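import Pool.Agent.Work.MP_4a1422_co.Family

/-!
The family, its `Nine`-freeness, and a criterion for a copy of `Nine` using one more set.
-/

namespace Pool.Agent.Saturation

open Elt

variable {E : Type*} {π : E → ℕ × ℕ} {m m' : ℕ}

/-- The family. -/
def Fam (π : E → ℕ × ℕ) (m m' : ℕ) : Set (Set E) :=
  {s | s = ∅ ∨ s = Set.univ ∨ ∃ e, ok m m' e ∧ s = toSet π e}

theorem nine_inc : ∀ a : Nine, ∃ b, ¬ a ≤ b ∧ ¬ b ≤ a := by decide

/-- The family contains no copy of `Nine`. -/
theorem fam_free (h : Grid π m m') : ¬ HasCopy Nine (Fam π m m') := by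
  rintro ⟨φ, hφ⟩
  have key : ∀ a, ∃ e, ok m m' e ∧ φ a = toSet π e := by
    intro a
    obtain ⟨b, hb1, hb2⟩ := nine_inc a
    rcases hφ a with ha | ha | ha
    · exact absurd (φ.le_iff_le.1 (by rw [ha]; exact Set.empty_subset _)) hb1
    · exact absurd (φ.le_iff_le.1 (by rw [ha]; exact Set.subset_univ _)) hb2
    · exact ha
  choose f hf hφf using key
  have hlt : ∀ a b, a ≤ b → a ≠ b → lt (f a) (f b) := by
    intro a b hab hne
    rcases tri (f a) (f b) with h1 | h1 | h1 | h1
    · exact absurd (φ.injective (by rw [hφf, hφf, h1])) hne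
    · exact h1
    · have : toSet π (f b) ⊆ toSet π (f a) := sub_of_lt h1
      rw [← hφf, ← hφf] at this
      exact absurd (le_antisymm hab (φ.le_iff_le.1 this)) hne
    · have := not_sub_of h (hf a) (hf b) (Or.inr h1)
      rw [← hφf, ← hφf] at this
      exact absurd (φ.le_iff_le.2 hab) this
  have hinc : ∀ a b, ¬ a ≤ b → ¬ b ≤ a → inc (f a) (f b) := by
    intro a b hab hba
    rcases tri (f a) (f b) with h1 | h1 | h1 | h1
    · exact absurd (φ.le_iff_le.1 (by rw [hφf, hφf, h1])) hab
    · have : toSet π (f a) ⊆ toSet π (f b) := sub_of_lt h1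
      rw [← hφf, ← hφf] at this
      exact absurd (φ.le_iff_le.1 this) hab
    · have : toSet π (f b) ⊆ toSet π (f a) := sub_of_lt h1
      rw [← hφf, ← hφf] at this
      exact absurd (φ.le_iff_le.1 this) hba
    · exact h1
  exact free_aux (f .t) (f .x) (f .y) (f .u) (f .p) (f .q) (f .e₁) (f .e₂) (f .e₃)
    (hlt _ _ (by decide) (by decide)) (hlt _ _ (by decide) (by decide))
    (hinc _ _ (by decide) (by decide))
    (hinc _ _ (by decide) (by decide)) (hinc _ _ (by decide) (by decide))
    (hinc _ _ (by decide) (by decide))
    (hlt _ _ (by decide) (by decide))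
    (hinc _ _ (by decide) (by decide)) (hinc _ _ (by decide) (by decide))
    (hinc _ _ (by decide) (by decide))
    (hlt _ _ (by decide) (by decide))
    (hinc _ _ (by decide) (by decide)) (hinc _ _ (by decide) (by decide))
    (hinc _ _ (by decide) (by decide)) (hinc _ _ (by decide) (by decide))
    (hinc _ _ (by decide) (by decide)) (hinc _ _ (by decide) (by decide))
    (hinc _ _ (by decide) (by decide)) (hinc _ _ (by decide) (by decide))
    (hinc _ _ (by decide) (by decide)) (hinc _ _ (by decide) (by decide))
    (hinc _ _ (by decide) (by decide)) (hinc _ _ (by decide) (by decide))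
    (hinc _ _ (by decide) (by decide)) (hinc _ _ (by decide) (by decide))
    (hinc _ _ (by decide) (by decide)) (hinc _ _ (by decide) (by decide))
    (hinc _ _ (by decide) (by decide))
    (hinc _ _ (by decide) (by decide)) (hinc _ _ (by decide) (by decide))
    (hinc _ _ (by decide) (by decide)) (hinc _ _ (by decide) (by decide))
    (hinc _ _ (by decide) (by decide)) (hinc _ _ (by decide) (by decide))
    (hinc _ _ (by decide) (by decide)) (hinc _ _ (by decide) (by decide))

/-- value of a symbol or of the extra set -/
def val (π : E → ℕ × ℕ) (G : Set E) : Option Elt → Set E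
  | none => G
  | some e => toSet π e

/-- table for strict inclusion, `none` standing for the extra set `G` -/
def LTo (π : E → ℕ × ℕ) (G : Set E) : Option Elt → Option Elt → Prop
  | some e, some f => lt e f
  | some e, none => toSet π e ⊆ G
  | none, some f => G ⊆ toSet π f
  | none, none => False

/-- table for incomparability, `none` standing for the extra set `G` -/
def INo (π : E → ℕ × ℕ) (G : Set E) : Option Elt → Option Elt → Prop
  | some e, some f => inc e f
  | some e, none => ¬ toSet π e ⊆ G ∧ ¬ G ⊆ toSet π e
  | none, some e => ¬ toSet π e ⊆ G ∧ ¬ G ⊆ toSet π e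
  | none, none => False

/-- index range -/
def oko (m m' : ℕ) : Option Elt → Prop
  | some e => ok m m' e
  | none => True

theorem LTo_sub {G : Set E} {a b : Option Elt} (hl : LTo π G a b) : val π G a ⊆ val π G b := by
  rcases a with _ | a <;> rcases b with _ | b <;> simp only [LTo, val] at *
  · exact hl
  · exact hl
  · exact sub_of_lt hl

theorem LTo_nsub (h : Grid π m m') {G : Set E} (hG : G ∉ Fam π m m') {a b : Option Elt}
    (ha : oko m m' a) (hb : oko m m' b) (hl : LTo π G a b) : ¬ val π G b ⊆ val π G a := by
  rcases a with _ | a <;> rcases b with _ | b <;> simp only [LTo, val, oko] at *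
  · intro hs
    exact hG (Or.inr (Or.inr ⟨b, hb, Set.Subset.antisymm hl hs⟩))
  · intro hs
    exact hG (Or.inr (Or.inr ⟨a, ha, Set.Subset.antisymm hs hl⟩))
  · exact not_sub_of h hb ha (Or.inl hl)

theorem INo_n1 (h : Grid π m m') {G : Set E} {a b : Option Elt}
    (ha : oko m m' a) (hb : oko m m' b) (hl : INo π G a b) : ¬ val π G a ⊆ val π G b := by
  rcases a with _ | a <;> rcases b with _ | b <;> simp only [INo, val, oko] at *
  · exact hl.2
  · exact hl.1
  · exact not_sub_of h ha hb (Or.inr hl)

theorem inc_symm {a b : Elt} (h : inc a b) : inc b a := by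
  rcases a with a | a | a | a | _ | _ | _ | _ <;> rcases b with b | b | b | b | _ | _ | _ | _ <;>
  simp only [inc] at * <;> omega

theorem INo_symm {G : Set E} {a b : Option Elt} (hl : INo π G a b) : INo π G b a := by
  rcases a with _ | a <;> rcases b with _ | b <;> simp only [INo] at *
  · exact hl
  · exact hl
  · exact inc_symm hl

/-- Criterion for a copy of `Nine` using the extra set. -/
theorem forms_of (h : Grid π m m') {G : Set E} (hG : G ∉ Fam π m m')
    (t x y u p q e f g : Option Elt)
    (okt : oko m m' t) (okx : oko m m' x) (oky : oko m m' y) (oku : oko m m' u)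
    (okp : oko m m' p) (okq : oko m m' q) (oke : oko m m' e) (okf : oko m m' f)
    (okg : oko m m' g)
    (hxt : LTo π G x t) (hyt : LTo π G y t) (hup : LTo π G u p) (huq : LTo π G u q)
    (hxy : INo π G x y) (hpq : INo π G p q)
    (htu : INo π G t u) (htp : INo π G t p) (htq : INo π G t q)
    (hxu : INo π G x u) (hxp : INo π G x p) (hxq : INo π G x q)
    (hyu : INo π G y u) (hyp : INo π G y p) (hyq : INo π G y q)
    (het : INo π G e t) (hex : INo π G e x) (hey : INo π G e y)
    (heu : INo π G e u) (hep : INo π G e p) (heq : INo π G e q)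
    (hft : INo π G f t) (hfx : INo π G f x) (hfy : INo π G f y)
    (hfu : INo π G f u) (hfp : INo π G f p) (hfq : INo π G f q)
    (hgt : INo π G g t) (hgx : INo π G g x) (hgy : INo π G g y)
    (hgu : INo π G g u) (hgp : INo π G g p) (hgq : INo π G g q)
    (hef : INo π G e f) (heg : INo π G e g) (hfg : INo π G f g) :
    HasCopy Nine (insert G (Fam π m m')) := by
  let s : Nine → Option Elt := fun a => match a with
    | .t => t | .x => x | .y => y | .u => u | .p => p | .q => q | .e₁ => e | .e₂ => f | .e₃ => g
  have sok : ∀ a, oko m m' (s a) := by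
    intro a; cases a <;> assumption
  have hlt : ∀ a b : Nine, a ≤ b → a ≠ b → LTo π G (s a) (s b) := by
    intro a b
    cases a <;> cases b <;> first
      | (intro h1; exact absurd h1 (by decide))
      | (intro h1 h2; exact absurd rfl h2)
      | (intro _ _; assumption)
  have hin : ∀ a b : Nine, ¬ a ≤ b → ¬ b ≤ a → INo π G (s a) (s b) := by
    intro a b
    cases a <;> cases b <;> first
      | (intro h1; exact absurd (by decide) h1)
      | (intro _ h1; exact absurd (by decide) h1)
      | (intro _ _; assumption)
      | (intro _ _; apply INo_symm; assumption)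
  refine ⟨OrderEmbedding.ofMapLEIff (fun a => val π G (s a)) ?_, ?_⟩
  · intro a b
    constructor
    · intro hs
      by_contra hab
      by_cases hba : b ≤ a
      · have hne : b ≠ a := fun h => hab (h ▸ le_refl _)
        exact LTo_nsub h hG (sok b) (sok a) (hlt b a hba hne) hs
      · exact INo_n1 h (sok a) (sok b) (hin a b hab hba) hs
    · intro hab
      by_cases hne : a = b
      · subst hne; exact le_refl _
      · exact LTo_sub (hlt a b hab hne)
  · intro a
    simp only [OrderEmbedding.coe_ofMapLEIff]
    have := sok a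
    rcases hsa : s a with _ | c
    · exact Or.inl rfl
    · rw [hsa] at this
      exact Or.inr (Or.inr (Or.inr ⟨c, this, rfl⟩))

end Pool.Agent.Saturation
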