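import Mathlib

/-!
Induced poset saturation in hypergrids: definitions for MP_4a1422_co.
-/

open Filter Topology

namespace Pool.Agent.Saturation

/-- `F ⊆ X` contains an induced copy of the poset `P`. -/
def HasCopy (P : Type*) [LE P] {X : Type*} [LE X] (F : Set X) : Prop :=
  ∃ φ : P ↪o X, ∀ p, φ p ∈ F

/-- `F ⊆ X` is induced `P`-saturated: it contains no induced copy of `P`, but adding any element of
`X` outside `F` creates one. -/
def IsSaturated (P : Type*) [LE P] {X : Type*} [LE X] (F : Set X) : Prop :=
  ¬ HasCopy P F ∧ ∀ x, x ∉ F → HasCopy P (insert x F)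

/-- `sat*([t]^n, P)`: the least size of an induced `P`-saturated family in the hypergrid
`Fin n → Fin t` with the coordinatewise order. -/
noncomputable def satNumber (t n : ℕ) (P : Type*) [LE P] : ℕ :=
  sInf {k | ∃ F : Finset (Fin n → Fin t),
    IsSaturated P (F : Set (Fin n → Fin t)) ∧ F.card = k}

/-- The statement of the problem: for every finite poset `P` and every `t ≥ 2`, either
`sat*([t]^n, P)` is bounded or `sat*([t]^n, P) = c n + o(n)` for a constant `c > 0`. -/
def LinearDichotomy : Prop :=
  ∀ (P : Type) [PartialOrder P] [Finite P] (t : ℕ), 2 ≤ t →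
    (∃ K : ℕ, ∀ n, satNumber t n P ≤ K) ∨
    ∃ c : ℝ, 0 < c ∧ Tendsto (fun n : ℕ => (satNumber t n P : ℝ) / n) atTop (𝓝 c)

/-- The nine-element poset: two minimal elements `x, y` below `t`, an element `u` below two
maximal elements `p, q`, and three isolated points `e₁, e₂, e₃`. -/
inductive Nine
  | t | x | y | u | p | q | e₁ | e₂ | e₃
  deriving DecidableEq

namespace Nine

instance : Fintype Nine :=
  ⟨{t, x, y, u, p, q, e₁, e₂, e₃}, by intro a; cases a <;> decide⟩

/-- The strict comparabilities `x < t`, `y < t`, `u < p`, `u < q`. -/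
def rel : Nine → Nine → Bool
  | x, t => true
  | y, t => true
  | u, p => true
  | u, q => true
  | _, _ => false

instance : LE Nine := ⟨fun a b => a = b ∨ rel a b = true⟩

instance (a b : Nine) : Decidable (a ≤ b) := inferInstanceAs (Decidable (_ ∨ _))

instance : PartialOrder Nine where
  le_refl a := Or.inl rfl
  le_trans a b c := by
    revert a b c; decide
  le_antisymm a b := by
    revert a b; decide

end Nine

end Pool.Agent.Saturation
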