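import Pool.Agent.Work.MP_4a1422_co.Defs

/-!
Symbols for the members of the family (other than the empty set and the full set) and the tables
of comparabilities and incomparabilities.  Rows and columns are indexed by natural numbers.
-/

namespace Pool.Agent.Saturation

/-- `R a`: a row, `S a`: the complement of a row, `C b`: a column, `D b`: the complement of a
column, `A`: the cells `(0,1), (0,2)`, `A'`: the complement, `B`: the cells `(1,0), (2,0)`,
`B'`: the complement. -/
inductive Elt
  | R (a : ℕ) | S (a : ℕ) | C (b : ℕ) | D (b : ℕ) | A | A' | B | B'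

namespace Elt

/-- strict inclusion -/
def lt : Elt → Elt → Prop
  | R a, S b => a ≠ b
  | R a, A' => a ≠ 0
  | R a, B' => a ≠ 1 ∧ a ≠ 2
  | S a, A' => a = 0
  | C b, D c => b ≠ c
  | C b, B' => b ≠ 0
  | C b, A' => b ≠ 1 ∧ b ≠ 2
  | D b, B' => b = 0
  | A, R b => b = 0
  | A, S b => b ≠ 0
  | A, D b => b ≠ 1 ∧ b ≠ 2
  | A, B' => True
  | B, C b => b = 0
  | B, D b => b ≠ 0
  | B, S a => a ≠ 1 ∧ a ≠ 2
  | B, A' => True
  | _, _ => False

/-- incomparability -/
def inc : Elt → Elt → Prop
  | R a, R b => a ≠ b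
  | R a, S b => a = b
  | R _, C _ => True
  | R _, D _ => True
  | R a, A => a ≠ 0
  | R a, A' => a = 0
  | R _, B => True
  | R a, B' => a = 1 ∨ a = 2
  | S a, R b => a = b
  | S a, S b => a ≠ b
  | S _, C _ => True
  | S _, D _ => True
  | S a, A => a = 0
  | S a, A' => a ≠ 0
  | S a, B => a = 1 ∨ a = 2
  | S _, B' => True
  | C _, R _ => True
  | C _, S _ => True
  | C b, C c => b ≠ c
  | C b, D c => b = c
  | C _, A => True
  | C b, A' => b = 1 ∨ b = 2
  | C b, B => b ≠ 0
  | C b, B' => b = 0
  | D _, R _ => True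
  | D _, S _ => True
  | D b, C c => b = c
  | D b, D c => b ≠ c
  | D b, A => b = 1 ∨ b = 2
  | D _, A' => True
  | D b, B => b = 0
  | D b, B' => b ≠ 0
  | A, R b => b ≠ 0
  | A, S b => b = 0
  | A, C _ => True
  | A, D b => b = 1 ∨ b = 2
  | A, A' => True
  | A, B => True
  | A', R b => b = 0
  | A', S b => b ≠ 0
  | A', C b => b = 1 ∨ b = 2
  | A', D _ => True
  | A', A => True
  | A', B' => True
  | B, R _ => True
  | B, S b => b = 1 ∨ b = 2
  | B, C b => b ≠ 0
  | B, D b => b = 0
  | B, A => True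
  | B, B' => True
  | B', R b => b = 1 ∨ b = 2
  | B', S _ => True
  | B', C b => b = 0
  | B', D b => b ≠ 0
  | B', A' => True
  | B', B => True
  | _, _ => False

end Elt

end Pool.Agent.Saturation
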