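import Pool.Agent.Work.MP_4a1422_co.Free

/-!
The family of sets on a ground set `E` with a map onto the `m × m'` grid.
-/

namespace Pool.Agent.Saturation

open Elt

namespace Elt

/-- The cell `(x, y)` belongs to the set with symbol `e`. -/
def cell : Elt → ℕ → ℕ → Prop
  | R a, x, _ => x = a
  | S a, x, _ => x ≠ a
  | C b, _, y => y = b
  | D b, _, y => y ≠ b
  | A, x, y => x = 0 ∧ (y = 1 ∨ y = 2)
  | A', x, y => ¬ (x = 0 ∧ (y = 1 ∨ y = 2))
  | B, x, y => y = 0 ∧ (x = 1 ∨ x = 2)
  | B', x, y => ¬ (y = 0 ∧ (x = 1 ∨ x = 2))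

/-- the index of the symbol is in the range of the `m × m'` grid -/
def ok (m m' : ℕ) : Elt → Prop
  | R a => a < m
  | S a => a < m
  | C b => b < m'
  | D b => b < m'
  | _ => True

theorem tri (e f : Elt) : e = f ∨ lt e f ∨ lt f e ∨ inc e f := by
  rcases e with a | a | a | a | _ | _ | _ | _ <;> rcases f with b | b | b | b | _ | _ | _ | _ <;>
  simp only [lt, inc, R.injEq, S.injEq, C.injEq, D.injEq, reduceCtorEq, true_or, or_true] <;> omega

end Elt

/-- A map onto the `m × m'` grid. -/
structure Grid {E : Type*} (π : E → ℕ × ℕ) (m m' : ℕ) : Prop where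
  hm : 5 ≤ m
  hm' : 5 ≤ m'
  fst_lt : ∀ e, (π e).1 < m
  snd_lt : ∀ e, (π e).2 < m'
  surj : ∀ a b, a < m → b < m' → ∃ e, π e = (a, b)

variable {E : Type*} {π : E → ℕ × ℕ} {m m' : ℕ}

/-- The set with symbol `e`. -/
def toSet (π : E → ℕ × ℕ) (e : Elt) : Set E := {z | cell e (π z).1 (π z).2}

theorem subset_iff (h : Grid π m m') (e f : Elt) : toSet π e ⊆ toSet π f ↔
    ∀ x < m, ∀ y < m', cell e x y → cell f x y := by
  constructor
  · intro hs x hx y hy hc
    obtain ⟨z, hz⟩ := h.surj x y hx hy
    have : z ∈ toSet π e := by simp only [toSet, Set.mem_ofPred_eq, hz]; exact hc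
    have := hs this
    simpa only [toSet, Set.mem_ofPred_eq, hz] using this
  · intro hs z hz
    exact hs _ (h.fst_lt z) _ (h.snd_lt z) hz

theorem not_sub_of (h : Grid π m m') {e f : Elt} (he : ok m m' e) (hf : ok m m' f)
    (hne : lt f e ∨ inc e f) : ¬ toSet π e ⊆ toSet π f := by
  rw [subset_iff h]
  have hm := h.hm
  have hm' := h.hm'
  intro hs
  have k : ∀ x y, x < m → y < m' → cell e x y → cell f x y := fun x y hx hy => hs x hx y hy
  clear hs
  rcases e with a | a | a | a | _ | _ | _ | _ <;> rcases f with b | b | b | b | _ | _ | _ | _ <;>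
  simp only [lt, inc, ok, cell, or_false, false_or] at * <;>
  first
  | omega
  | (have h1 := k a 0 (by omega) (by omega); have h2 := k a 1 (by omega) (by omega); omega)
  | (have h1 := k 0 a (by omega) (by omega); have h2 := k 1 a (by omega) (by omega); omega)
  | (have h1 := k a 3 (by omega) (by omega); omega)
  | (have h1 := k 3 a (by omega) (by omega); omega)
  | (have h1 := k a b (by omega) (by omega); omega)
  | (have h1 := k b a (by omega) (by omega); omega)
  | (have h1 := k b 0 (by omega) (by omega); have h2 := k b 1 (by omega) (by omega); omega)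
  | (have h1 := k 0 b (by omega) (by omega); have h2 := k 1 b (by omega) (by omega); omega)
  | (have h1 := k b 3 (by omega) (by omega); omega)
  | (have h1 := k 3 b (by omega) (by omega); omega)
  | (have h1 := k 0 0 (by omega) (by omega); have h2 := k 1 0 (by omega) (by omega)
     have h3 := k 2 0 (by omega) (by omega); omega)
  | (have h1 := k 0 0 (by omega) (by omega); have h2 := k 0 1 (by omega) (by omega)
     have h3 := k 0 2 (by omega) (by omega); omega)
  | (have h1 := k 0 0 (by omega) (by omega); have h2 := k 1 0 (by omega) (by omega)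
     have h3 := k 0 1 (by omega) (by omega); have h4 := k 1 1 (by omega) (by omega); omega)
  | (have h1 := k 0 1 (by omega) (by omega); have h2 := k 0 2 (by omega) (by omega); omega)
  | (have h1 := k 1 0 (by omega) (by omega); have h2 := k 2 0 (by omega) (by omega); omega)
  | (have h1 := k 3 3 (by omega) (by omega); have h2 := k 4 3 (by omega) (by omega)
     have h3 := k 3 4 (by omega) (by omega); omega)
  | (have h1 := k 0 3 (by omega) (by omega); have h2 := k 1 3 (by omega) (by omega); omega)
  | (have h1 := k 3 0 (by omega) (by omega); have h2 := k 3 1 (by omega) (by omega); omega)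

theorem sub_of_lt {e f : Elt} (h : lt e f) : toSet π e ⊆ toSet π f := by
  intro z hz
  simp only [toSet, Set.mem_ofPred_eq] at *
  rcases e with a | a | a | a | _ | _ | _ | _ <;> rcases f with b | b | b | b | _ | _ | _ | _ <;>
  simp only [lt, cell] at * <;> omega

end Pool.Agent.Saturation
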