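import Pool.Agent.Work.MP_4a1422_co.Copy

/-!
Every set outside the family, apart from some exceptional ones, creates a copy of `Nine`.
-/

namespace Pool.Agent.Saturation

open Elt

variable {E : Type*} {π : E → ℕ × ℕ} {m m' : ℕ}

section basic

theorem Rne (h : Grid π m m') {a : ℕ} (ha : a < m) {b : ℕ} (hb : b < m') :
    ∃ z, z ∈ toSet π (R a) ∧ z ∈ toSet π (C b) := by
  obtain ⟨z, hz⟩ := h.surj a b ha hb
  exact ⟨z, by simp [toSet, cell, hz], by simp [toSet, cell, hz]⟩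

theorem S_sub_iff (h : Grid π m m') {G : Set E} {a : ℕ} :
    toSet π (S a) ⊆ G ↔ ∀ c < m, c ≠ a → toSet π (R c) ⊆ G := by
  constructor
  · intro hs c _ hca z hz
    apply hs
    simp only [toSet, cell, Set.mem_ofPred_eq] at *
    omega
  · intro hs z hz
    refine hs (π z).1 (h.fst_lt z) hz ?_
    simp [toSet, cell]

theorem sub_R_iff (h : Grid π m m') {G : Set E} {a : ℕ} :
    G ⊆ toSet π (R a) ↔ ∀ c < m, c ≠ a → G ⊆ toSet π (S c) := by
  constructor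
  · intro hs c _ hca z hz
    have := hs hz
    simp only [toSet, cell, Set.mem_ofPred_eq] at *
    omega
  · intro hs z hz
    by_contra hz'
    have := hs (π z).1 (h.fst_lt z) hz' hz
    simp [toSet, cell] at this

theorem D_sub_iff (h : Grid π m m') {G : Set E} {a : ℕ} :
    toSet π (D a) ⊆ G ↔ ∀ c < m', c ≠ a → toSet π (C c) ⊆ G := by
  constructor
  · intro hs c _ hca z hz
    apply hs
    simp only [toSet, cell, Set.mem_ofPred_eq] at *
    omega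
  · intro hs z hz
    refine hs (π z).2 (h.snd_lt z) hz ?_
    simp [toSet, cell]

theorem sub_C_iff (h : Grid π m m') {G : Set E} {a : ℕ} :
    G ⊆ toSet π (C a) ↔ ∀ c < m', c ≠ a → G ⊆ toSet π (D c) := by
  constructor
  · intro hs c _ hca z hz
    have := hs hz
    simp only [toSet, cell, Set.mem_ofPred_eq] at *
    omega
  · intro hs z hz
    by_contra hz'
    have := hs (π z).2 (h.snd_lt z) hz' hz
    simp [toSet, cell] at this

theorem fR_mR (h : Grid π m m') {G : Set E} {a : ℕ} (ha : a < m) (h1 : toSet π (R a) ⊆ G)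
    (h2 : G ⊆ toSet π (S a)) : False := by
  have := h.hm'
  obtain ⟨z, hz, -⟩ := Rne h ha (show 0 < m' by omega)
  have := h2 (h1 hz)
  simp only [toSet, cell, Set.mem_ofPred_eq] at *
  omega

theorem fR_mC (h : Grid π m m') {G : Set E} {a b : ℕ} (ha : a < m) (hb : b < m')
    (h1 : toSet π (R a) ⊆ G) (h2 : G ⊆ toSet π (D b)) : False := by
  obtain ⟨z, hz, hz'⟩ := Rne h ha hb
  have := h2 (h1 hz)
  simp only [toSet, cell, Set.mem_ofPred_eq] at *
  omega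

theorem fC_mR (h : Grid π m m') {G : Set E} {a b : ℕ} (ha : a < m) (hb : b < m')
    (h1 : toSet π (C b) ⊆ G) (h2 : G ⊆ toSet π (S a)) : False := by
  obtain ⟨z, hz, hz'⟩ := Rne h ha hb
  have := h2 (h1 hz')
  simp only [toSet, cell, Set.mem_ofPred_eq] at *
  omega

theorem fC_mC (h : Grid π m m') {G : Set E} {b : ℕ} (hb : b < m') (h1 : toSet π (C b) ⊆ G)
    (h2 : G ⊆ toSet π (D b)) : False := by
  have := h.hm
  obtain ⟨z, -, hz⟩ := Rne h (show 0 < m by omega) hb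
  have := h2 (h1 hz)
  simp only [toSet, cell, Set.mem_ofPred_eq] at *
  omega

/-- `G` is incomparable to the set with symbol `e`. -/
def Inc (π : E → ℕ × ℕ) (G : Set E) (e : Elt) : Prop := ¬ toSet π e ⊆ G ∧ ¬ G ⊆ toSet π e

theorem incR (h : Grid π m m') {G : Set E} {a c : ℕ} (ha : ¬ toSet π (R a) ⊆ G) (hc : c < m)
    (hca : c ≠ a) (hc' : ¬ G ⊆ toSet π (S c)) : Inc π G (R a) :=
  ⟨ha, fun hs => hc' ((sub_R_iff h).1 hs c hc hca)⟩

theorem incS (h : Grid π m m') {G : Set E} {a c : ℕ} (ha : ¬ G ⊆ toSet π (S a)) (hc : c < m)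
    (hca : c ≠ a) (hc' : ¬ toSet π (R c) ⊆ G) : Inc π G (S a) :=
  ⟨fun hs => hc' ((S_sub_iff h).1 hs c hc hca), ha⟩

theorem incC (h : Grid π m m') {G : Set E} {a c : ℕ} (ha : ¬ toSet π (C a) ⊆ G) (hc : c < m')
    (hca : c ≠ a) (hc' : ¬ G ⊆ toSet π (D c)) : Inc π G (C a) :=
  ⟨ha, fun hs => hc' ((sub_C_iff h).1 hs c hc hca)⟩

theorem incD (h : Grid π m m') {G : Set E} {a c : ℕ} (ha : ¬ G ⊆ toSet π (D a)) (hc : c < m')
    (hca : c ≠ a) (hc' : ¬ toSet π (C c) ⊆ G) : Inc π G (D a) :=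
  ⟨fun hs => hc' ((D_sub_iff h).1 hs c hc hca), ha⟩

end basic

/-- case 1a: a half full row and two further rows that are not full -/
theorem case1a (h : Grid π m m') {G : Set E} (hG : G ∉ Fam π m m')
    (hC : ∀ b < m', ¬ toSet π (C b) ⊆ G ∧ ¬ G ⊆ toSet π (D b))
    {x y z : ℕ} (hx : x < m) (hy : y < m) (hz : z < m) (hxy : x ≠ y) (hxz : x ≠ z) (hyz : y ≠ z)
    (hfz : ¬ toSet π (R z) ⊆ G) (hmz : ¬ G ⊆ toSet π (S z)) (hfx : ¬ toSet π (R x) ⊆ G)
    (hfy : ¬ toSet π (R y) ⊆ G) (hGz : ¬ G ⊆ toSet π (R z)) :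
    HasCopy Nine (insert G (Fam π m m')) := by
  have hm := h.hm
  have hm' := h.hm'
  have iRx : Inc π G (R x) := incR h hfx hz (Ne.symm hxz) hmz
  have iRy : Inc π G (R y) := incR h hfy hz (Ne.symm hyz) hmz
  have iRz : Inc π G (R z) := ⟨hfz, hGz⟩
  have iSz : Inc π G (S z) := incS h hmz hx hxz hfx
  have iC0 : Inc π G (C 0) := incC h (hC 0 (by omega)).1 (show 1 < m' by omega) (by omega)
    (hC 1 (by omega)).2
  have iD0 : Inc π G (D 0) := incD h (hC 0 (by omega)).2 (show 1 < m' by omega) (by omega)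
    (hC 1 (by omega)).1
  have iD1 : Inc π G (D 1) := incD h (hC 1 (by omega)).2 (show 0 < m' by omega) (by omega)
    (hC 0 (by omega)).1
  have iD2 : Inc π G (D 2) := incD h (hC 2 (by omega)).2 (show 0 < m' by omega) (by omega)
    (hC 0 (by omega)).1
  refine forms_of h hG (some (S z)) (some (R x)) (some (R y)) (some (C 0)) (some (D 1))
    (some (D 2)) (some (R z)) none (some (D 0)) ?_ ?_ ?_ ?_ ?_ ?_ ?_ ?_ ?_
    ?_ ?_ ?_ ?_ ?_ ?_ ?_ ?_ ?_ ?_ ?_ ?_ ?_ ?_ ?_ ?_ ?_ ?_ ?_ ?_ ?_ ?_ ?_ ?_ ?_ ?_ ?_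
    ?_ ?_ ?_ ?_ ?_ ?_ ?_ ?_ ?_ <;>
  first
  | assumption
  | (simp only [LTo, INo, oko, lt, inc, ok]; omega)
  | (simp only [LTo, INo, oko, lt, inc, ok])

/-- case 1b: two full rows and two rows that are not full; a column that is neither full nor
missed, and another one that is not full -/
theorem case1b (h : Grid π m m') {G : Set E} (hG : G ∉ Fam π m m')
    {u v : ℕ} (hu : u < m') (hv : v < m') (huv : u ≠ v)
    (hfu : ¬ toSet π (C u) ⊆ G) (hfv : ¬ toSet π (C v) ⊆ G)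
    {a a' c c' : ℕ} (ha : a < m) (ha' : a' < m) (hc : c < m) (hc' : c' < m)
    (haa : a ≠ a') (hcc : c ≠ c')
    (hfa : toSet π (R a) ⊆ G) (hfa' : toSet π (R a') ⊆ G)
    (hfc : ¬ toSet π (R c) ⊆ G) (hfc' : ¬ toSet π (R c') ⊆ G) :
    HasCopy Nine (insert G (Fam π m m')) := by
  have hm := h.hm
  have hm' := h.hm'
  have hac : a ≠ c := fun hh => hfc (hh ▸ hfa)
  have hac' : a ≠ c' := fun hh => hfc' (hh ▸ hfa)
  have ha'c : a' ≠ c := fun hh => hfc (hh ▸ hfa')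
  have ha'c' : a' ≠ c' := fun hh => hfc' (hh ▸ hfa')
  have hma : ¬ G ⊆ toSet π (S a) := fun hh => fR_mR h ha hfa hh
  have hmC : ∀ b < m', ¬ G ⊆ toSet π (D b) := fun b hb hh => fR_mC h ha hb hfa hh
  have iRc : Inc π G (R c) := incR h hfc ha hac hma
  have iRc' : Inc π G (R c') := incR h hfc' ha hac' hma
  obtain ⟨w1, w2, hw1, hw2, hw12, hw1u, hw2u⟩ : ∃ w1 w2, w1 < m' ∧ w2 < m' ∧ w1 ≠ w2 ∧
      w1 ≠ u ∧ w2 ≠ u := by
    by_cases h0 : u = 0
    · exact ⟨1, 2, by omega, by omega, by omega, by omega, by omega⟩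
    · by_cases h1 : u = 1
      · exact ⟨0, 2, by omega, by omega, by omega, by omega, by omega⟩
      · exact ⟨0, 1, by omega, by omega, by omega, by omega, by omega⟩
  have iCu : Inc π G (C u) := incC h hfu hv (Ne.symm huv) (hmC v hv)
  have iDu : Inc π G (D u) := incD h (hmC u hu) hv (Ne.symm huv) hfv
  have iDw1 : Inc π G (D w1) := incD h (hmC w1 hw1) hu (Ne.symm hw1u) hfu
  have iDw2 : Inc π G (D w2) := incD h (hmC w2 hw2) hu (Ne.symm hw2u) hfu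
  refine forms_of h hG none (some (R a)) (some (R a')) (some (C u)) (some (D w1))
    (some (D w2)) (some (R c)) (some (R c')) (some (D u)) ?_ ?_ ?_ ?_ ?_ ?_ ?_ ?_ ?_
    ?_ ?_ ?_ ?_ ?_ ?_ ?_ ?_ ?_ ?_ ?_ ?_ ?_ ?_ ?_ ?_ ?_ ?_ ?_ ?_ ?_ ?_ ?_ ?_ ?_ ?_ ?_
    ?_ ?_ ?_ ?_ ?_ ?_ ?_ ?_ ?_ <;>
  first
  | assumption
  | (simp only [LTo, INo, oko, lt, inc, ok]; omega)
  | (simp only [LTo, INo, oko, lt, inc, ok])

/-- case 3i: three rows and two columns that are not full, no row or column is missed -/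
theorem case3i (h : Grid π m m') {G : Set E} (hG : G ∉ Fam π m m')
    (hmR : ∀ a < m, ¬ G ⊆ toSet π (S a)) (hmC : ∀ b < m', ¬ G ⊆ toSet π (D b))
    {u v : ℕ} (hu : u < m') (hv : v < m') (huv : u ≠ v)
    (hfu : ¬ toSet π (C u) ⊆ G) (hfv : ¬ toSet π (C v) ⊆ G)
    {x y z : ℕ} (hx : x < m) (hy : y < m) (hz : z < m) (hxy : x ≠ y) (hxz : x ≠ z) (hyz : y ≠ z)
    (hfz : ¬ toSet π (R z) ⊆ G) (hfx : ¬ toSet π (R x) ⊆ G) (hfy : ¬ toSet π (R y) ⊆ G) :
    HasCopy Nine (insert G (Fam π m m')) := by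
  have hm := h.hm
  have hm' := h.hm'
  have iRx : Inc π G (R x) := incR h hfx hz (Ne.symm hxz) (hmR z hz)
  have iRy : Inc π G (R y) := incR h hfy hz (Ne.symm hyz) (hmR z hz)
  have iRz : Inc π G (R z) := incR h hfz hx hxz (hmR x hx)
  have iSz : Inc π G (S z) := incS h (hmR z hz) hx hxz hfx
  obtain ⟨w1, w2, hw1, hw2, hw12, hw1u, hw2u⟩ : ∃ w1 w2, w1 < m' ∧ w2 < m' ∧ w1 ≠ w2 ∧
      w1 ≠ u ∧ w2 ≠ u := by
    by_cases h0 : u = 0
    · exact ⟨1, 2, by omega, by omega, by omega, by omega, by omega⟩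
    · by_cases h1 : u = 1
      · exact ⟨0, 2, by omega, by omega, by omega, by omega, by omega⟩
      · exact ⟨0, 1, by omega, by omega, by omega, by omega, by omega⟩
  have iCu : Inc π G (C u) := incC h hfu hv (Ne.symm huv) (hmC v hv)
  have iDu : Inc π G (D u) := incD h (hmC u hu) hv (Ne.symm huv) hfv
  have iDw1 : Inc π G (D w1) := incD h (hmC w1 hw1) hu (Ne.symm hw1u) hfu
  have iDw2 : Inc π G (D w2) := incD h (hmC w2 hw2) hu (Ne.symm hw2u) hfu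
  refine forms_of h hG (some (S z)) (some (R x)) (some (R y)) (some (C u)) (some (D w1))
    (some (D w2)) (some (R z)) none (some (D u)) ?_ ?_ ?_ ?_ ?_ ?_ ?_ ?_ ?_
    ?_ ?_ ?_ ?_ ?_ ?_ ?_ ?_ ?_ ?_ ?_ ?_ ?_ ?_ ?_ ?_ ?_ ?_ ?_ ?_ ?_ ?_ ?_ ?_ ?_ ?_ ?_
    ?_ ?_ ?_ ?_ ?_ ?_ ?_ ?_ ?_ <;>
  first
  | assumption
  | (simp only [LTo, INo, oko, lt, inc, ok]; omega)
  | (simp only [LTo, INo, oko, lt, inc, ok])

/-- case 3ii: exactly one row is not full, a full column, three columns that are not full -/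
theorem case3ii (h : Grid π m m') {G : Set E} (hG : G ∉ Fam π m m')
    {d : ℕ} (hd : d < m) (hSd : toSet π (S d) ⊆ G) (hfd : ¬ toSet π (R d) ⊆ G)
    {b : ℕ} (hb : b < m') (hfb : toSet π (C b) ⊆ G)
    {x y z : ℕ} (hx : x < m') (hy : y < m') (hz : z < m') (hxy : x ≠ y) (hxz : x ≠ z)
    (hyz : y ≠ z) (hfz : ¬ toSet π (C z) ⊆ G) (hfx : ¬ toSet π (C x) ⊆ G)
    (hfy : ¬ toSet π (C y) ⊆ G) :
    HasCopy Nine (insert G (Fam π m m')) := by
  have hm := h.hm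
  have hm' := h.hm'
  have hbx : b ≠ x := fun hh => hfx (hh ▸ hfb)
  have hby : b ≠ y := fun hh => hfy (hh ▸ hfb)
  have hbz : b ≠ z := fun hh => hfz (hh ▸ hfb)
  have hmR : ∀ a < m, ¬ G ⊆ toSet π (S a) := fun a ha hh => fC_mR h ha hb hfb hh
  have hmb : ¬ G ⊆ toSet π (D b) := fun hh => fC_mC h hb hfb hh
  obtain ⟨w1, w2, hw1, hw2, hw12, hw1d, hw2d⟩ : ∃ w1 w2, w1 < m ∧ w2 < m ∧ w1 ≠ w2 ∧
      w1 ≠ d ∧ w2 ≠ d := by
    by_cases h0 : d = 0
    · exact ⟨1, 2, by omega, by omega, by omega, by omega, by omega⟩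
    · by_cases h1 : d = 1
      · exact ⟨0, 2, by omega, by omega, by omega, by omega, by omega⟩
      · exact ⟨0, 1, by omega, by omega, by omega, by omega, by omega⟩
  have iRd : Inc π G (R d) := incR h hfd hw1 hw1d (hmR w1 hw1)
  have iSw1 : Inc π G (S w1) := incS h (hmR w1 hw1) hd (Ne.symm hw1d) hfd
  have iSw2 : Inc π G (S w2) := incS h (hmR w2 hw2) hd (Ne.symm hw2d) hfd
  have iCx : Inc π G (C x) := incC h hfx hb hbx hmb
  have iCy : Inc π G (C y) := incC h hfy hb hby hmb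
  have iCz : Inc π G (C z) := incC h hfz hb hbz hmb
  refine forms_of h hG none (some (S d)) (some (C b)) (some (R d)) (some (S w1))
    (some (S w2)) (some (C x)) (some (C y)) (some (C z)) ?_ ?_ ?_ ?_ ?_ ?_ ?_ ?_ ?_
    ?_ ?_ ?_ ?_ ?_ ?_ ?_ ?_ ?_ ?_ ?_ ?_ ?_ ?_ ?_ ?_ ?_ ?_ ?_ ?_ ?_ ?_ ?_ ?_ ?_ ?_ ?_
    ?_ ?_ ?_ ?_ ?_ ?_ ?_ ?_ ?_ <;>
  first
  | assumption
  | (simp only [LTo, INo, oko, lt, inc, ok]; omega)
  | (simp only [LTo, INo, oko, lt, inc, ok])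

/-- case 3iii: exactly one row and exactly one column are not full -/
theorem case3iii (h : Grid π m m') {G : Set E} (hG : G ∉ Fam π m m')
    {d : ℕ} (hd : d < m) (hSd : toSet π (S d) ⊆ G) (hfd : ¬ toSet π (R d) ⊆ G)
    {c : ℕ} (hc : c < m') (hDc : toSet π (D c) ⊆ G) (hfc : ¬ toSet π (C c) ⊆ G) :
    HasCopy Nine (insert G (Fam π m m')) := by
  have hm := h.hm
  have hm' := h.hm'
  obtain ⟨b, hb, hbc⟩ : ∃ b < m', b ≠ c := by
    by_cases h0 : c = 0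
    · exact ⟨1, by omega, by omega⟩
    · exact ⟨0, by omega, by omega⟩
  have hfb : toSet π (C b) ⊆ G := (D_sub_iff h).1 hDc b hb hbc
  have hmR : ∀ a < m, ¬ G ⊆ toSet π (S a) := fun a ha hh => fC_mR h ha hb hfb hh
  obtain ⟨w1, w2, hw1, hw2, hw12, hw1d, hw2d⟩ : ∃ w1 w2, w1 < m ∧ w2 < m ∧ w1 ≠ w2 ∧
      w1 ≠ d ∧ w2 ≠ d := by
    by_cases h0 : d = 0
    · exact ⟨1, 2, by omega, by omega, by omega, by omega, by omega⟩
    · by_cases h1 : d = 1
      · exact ⟨0, 2, by omega, by omega, by omega, by omega, by omega⟩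
      · exact ⟨0, 1, by omega, by omega, by omega, by omega, by omega⟩
  have hfw1 : toSet π (R w1) ⊆ G := (S_sub_iff h).1 hSd w1 hw1 hw1d
  have hmC : ∀ b < m', ¬ G ⊆ toSet π (D b) := fun b hb hh => fR_mC h hw1 hb hfw1 hh
  obtain ⟨x, y, z, hx, hy, hz, hxy, hxz, hyz, hxc, hyc, hzc⟩ : ∃ x y z, x < m' ∧ y < m' ∧
      z < m' ∧ x ≠ y ∧ x ≠ z ∧ y ≠ z ∧ x ≠ c ∧ y ≠ c ∧ z ≠ c := by
    by_cases h0 : c = 0
    · exact ⟨1, 2, 3, by omega, by omega, by omega, by omega, by omega, by omega, by omega,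
        by omega, by omega⟩
    · by_cases h1 : c = 1
      · exact ⟨0, 2, 3, by omega, by omega, by omega, by omega, by omega, by omega, by omega,
          by omega, by omega⟩
      · by_cases h2 : c = 2
        · exact ⟨0, 1, 3, by omega, by omega, by omega, by omega, by omega, by omega, by omega,
            by omega, by omega⟩
        · exact ⟨0, 1, 2, by omega, by omega, by omega, by omega, by omega, by omega, by omega,
            by omega, by omega⟩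
  have iRd : Inc π G (R d) := incR h hfd hw1 hw1d (hmR w1 hw1)
  have iSw1 : Inc π G (S w1) := incS h (hmR w1 hw1) hd (Ne.symm hw1d) hfd
  have iSw2 : Inc π G (S w2) := incS h (hmR w2 hw2) hd (Ne.symm hw2d) hfd
  have iDx : Inc π G (D x) := incD h (hmC x hx) hc (Ne.symm hxc) hfc
  have iDy : Inc π G (D y) := incD h (hmC y hy) hc (Ne.symm hyc) hfc
  have iDz : Inc π G (D z) := incD h (hmC z hz) hc (Ne.symm hzc) hfc
  refine forms_of h hG none (some (S d)) (some (D c)) (some (R d)) (some (S w1))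
    (some (S w2)) (some (D x)) (some (D y)) (some (D z)) ?_ ?_ ?_ ?_ ?_ ?_ ?_ ?_ ?_
    ?_ ?_ ?_ ?_ ?_ ?_ ?_ ?_ ?_ ?_ ?_ ?_ ?_ ?_ ?_ ?_ ?_ ?_ ?_ ?_ ?_ ?_ ?_ ?_ ?_ ?_ ?_
    ?_ ?_ ?_ ?_ ?_ ?_ ?_ ?_ ?_ <;>
  first
  | assumption
  | (simp only [LTo, INo, oko, lt, inc, ok]; omega)
  | (simp only [LTo, INo, oko, lt, inc, ok])

end Pool.Agent.Saturation
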