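import Pool.Agent.Work.MP_4a1422_co.Elt

namespace Pool.Agent.Saturation

open Elt

theorem free_aux (t x y u p q e f g : Elt)
    (hup : lt u p) (huq : lt u q) (hpq : inc p q)
    (htu : inc t u) (htp : inc t p) (htq : inc t q)
    (hxt : lt x t) (hxu : inc x u) (hxp : inc x p) (hxq : inc x q)
    (hyt : lt y t) (hyx : inc y x) (hyu : inc y u) (hyp : inc y p) (hyq : inc y q)
    (heu : inc e u) (hep : inc e p) (heq : inc e q) (het : inc e t) (hex : inc e x) (hey : inc e y)
    (hfu : inc f u) (hfp : inc f p) (hfq : inc f q) (hft : inc f t) (hfx : inc f x) (hfy : inc f y)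
    (hfe : inc f e)
    (hgu : inc g u) (hgp : inc g p) (hgq : inc g q) (hgt : inc g t) (hgx : inc g x) (hgy : inc g y)
    (hge : inc g e) (hgf : inc g f) : False := by
  rcases u with a | a | a | a | _ | _ | _ | _ <;>
  rcases p with b | b | b | b | _ | _ | _ | _ <;>
  simp only [lt] at hup <;>
  rcases q with c | c | c | c | _ | _ | _ | _ <;>
  simp only [lt, inc] at huq hpq <;>
  (try (exfalso; omega)) <;>
  rcases t with d | d | d | d | _ | _ | _ | _ <;>
  simp only [inc] at htu htp htq <;>
  (try (exfalso; omega)) <;>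
  rcases x with h | h | h | h | _ | _ | _ | _ <;>
  simp only [lt, inc] at hxt hxu hxp hxq <;>
  (try (exfalso; omega)) <;>
  rcases y with k | k | k | k | _ | _ | _ | _ <;>
  simp only [lt, inc] at hyt hyx hyu hyp hyq <;>
  (try (exfalso; omega)) <;>
  rcases e with e | e | e | e | _ | _ | _ | _ <;>
  simp only [inc] at heu hep heq het hex hey <;>
  (try (exfalso; omega)) <;>
  rcases f with f | f | f | f | _ | _ | _ | _ <;>
  simp only [inc] at hfu hfp hfq hft hfx hfy hfe <;>
  (try (exfalso; omega)) <;>
  rcases g with g | g | g | g | _ | _ | _ | _ <;>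
  simp only [inc] at hgu hgp hgq hgt hgx hgy hge hgf <;>
  (exfalso; omega)

end Pool.Agent.Saturation
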