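import Pool.Agent.Work.MP_4a1422_co.Defs

/-!
A lower bound: if every element of `P` has an incomparable partner and `P` has no comparable
twins, then every induced `P`-saturated family of subsets of `ι` has at least `√|ι|` members.
-/

namespace Pool.Agent.Saturation

theorem HasCopy.map {P X Y : Type*} [LE P] [LE X] [LE Y] (e : X ≃o Y) {F : Set X}
    (h : HasCopy P F) : HasCopy P (e '' F) := by
  obtain ⟨φ, hφ⟩ := h
  exact ⟨φ.trans e.toOrderEmbedding, fun p => ⟨φ p, hφ p, rfl⟩⟩

theorem hasCopy_map_iff {P X Y : Type*} [LE P] [LE X] [LE Y] (e : X ≃o Y) {F : Set X} :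
    HasCopy P (e '' F) ↔ HasCopy P F := by
  constructor
  · intro h
    have := h.map e.symm
    rwa [← Set.image_comp, show (e.symm ∘ e : X → X) = id from by ext; simp, Set.image_id] at this
  · exact fun h => h.map e

theorem IsSaturated.map {P X Y : Type*} [LE P] [LE X] [LE Y] (e : X ≃o Y) {F : Set X}
    (h : IsSaturated P F) : IsSaturated P (e '' F) := by
  refine ⟨fun hc => h.1 ((hasCopy_map_iff e).1 hc), fun y hy => ?_⟩
  have hx : e.symm y ∉ F := fun hx => hy ⟨e.symm y, hx, by simp⟩
  have := (h.2 _ hx).map e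
  rwa [Set.image_insert_eq, e.apply_symm_apply] at this

/-- No comparable twins, and every element has an incomparable partner. -/
def TwinFree (P : Type*) [PartialOrder P] : Prop :=
  (∀ a : P, ∃ b, ¬ a ≤ b ∧ ¬ b ≤ a) ∧
  ∀ a b : P, a ≤ b → a ≠ b → ∃ c, c ≠ a ∧ c ≠ b ∧ ¬ ((c ≤ a ↔ c ≤ b) ∧ (a ≤ c ↔ b ≤ c))

theorem nine_twinFree : TwinFree Nine := by
  unfold TwinFree
  decide

variable {ι : Type*} {P : Type*} [PartialOrder P]

theorem empty_mem (hP : TwinFree P) {F : Set (Set ι)} (hF : IsSaturated P F) : ∅ ∈ F := by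
  by_contra h0
  obtain ⟨φ, hφ⟩ := hF.2 _ h0
  refine hF.1 ⟨φ, fun p => ?_⟩
  rcases hφ p with h | h
  · exfalso
    obtain ⟨b, hb, -⟩ := hP.1 p
    exact hb (φ.le_iff_le.1 (by rw [h]; exact Set.empty_subset _))
  · exact h

theorem exists_pair [Finite ι] (hP : TwinFree P) {F : Set (Set ι)} (hF : IsSaturated P F)
    (i : ι) : ∃ A ∈ F, ∃ C ∈ F, C \ A = {i} := by
  classical
  have hne : {A | A ∈ F ∧ i ∉ A}.Nonempty := ⟨∅, empty_mem hP hF, Set.notMem_empty i⟩
  obtain ⟨A, hA⟩ := (Set.toFinite {A | A ∈ F ∧ i ∉ A}).exists_maximal hne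
  have hAF : A ∈ F := hA.1.1
  have hiA : i ∉ A := hA.1.2
  have hmax : ∀ C ∈ F, A ⊆ C → C ≠ A → i ∈ C := by
    intro C hC hAC hne
    by_contra hi
    exact hne (Set.Subset.antisymm (hA.2 ⟨hC, hi⟩ hAC) hAC)
  refine ⟨A, hAF, ?_⟩
  by_contra hno
  have hno' : ∀ C ∈ F, C \ A ≠ {i} := fun C hC h => hno ⟨C, hC, h⟩
  set G : Set ι := insert i A with hG
  have hAG : A ⊆ G := Set.subset_insert _ _
  have hAneG : A ≠ G := fun h => hiA (h ▸ Set.mem_insert i A)
  have hGF : G ∉ F := by
    intro h
    refine hno' G h ?_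
    ext j
    simp only [hG, Set.mem_sdiff, Set.mem_insert_iff, Set.mem_singleton_iff]
    constructor
    · rintro ⟨h | h, h'⟩
      · exact h
      · exact absurd h h'
    · rintro rfl
      exact ⟨Or.inl rfl, hiA⟩
  have hdown : ∀ C ∈ F, C ⊆ A ↔ C ⊆ G := by
    intro C hC
    refine ⟨fun h => h.trans hAG, fun h j hj => ?_⟩
    by_contra hjA
    have hji : j = i := by
      rcases h hj with h | h
      · exact h
      · exact absurd h hjA
    subst hji
    refine hno' C hC ?_
    ext k
    simp only [Set.mem_sdiff, Set.mem_singleton_iff]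
    constructor
    · rintro ⟨hk, hk'⟩
      rcases h hk with h | h
      · exact h
      · exact absurd h hk'
    · rintro rfl
      exact ⟨hj, hjA⟩
  have hup : ∀ C ∈ F, C ≠ A → (A ⊆ C ↔ G ⊆ C) := by
    intro C hC hCA
    refine ⟨fun h => ?_, fun h => hAG.trans h⟩
    exact Set.insert_subset (hmax C hC h hCA) h
  obtain ⟨φ, hφ⟩ := hF.2 _ hGF
  by_cases hp : ∃ p₀, φ p₀ = G
  · obtain ⟨p₀, hp₀⟩ := hp
    have hmem : ∀ p, p ≠ p₀ → φ p ∈ F := by
      intro p hne
      rcases hφ p with h | h
      · exact absurd (φ.injective (h.trans hp₀.symm)) hne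
      · exact h
    by_cases hq : ∃ p₁, φ p₁ = A
    · obtain ⟨p₁, hp₁⟩ := hq
      have hne : p₁ ≠ p₀ := by
        rintro rfl
        exact hAneG (hp₁.symm.trans hp₀)
      have hle : p₁ ≤ p₀ := φ.le_iff_le.1 (by rw [hp₀, hp₁]; exact hAG)
      obtain ⟨c, hc1, hc0, hc⟩ := hP.2 p₁ p₀ hle hne
      have hcF := hmem c hc0
      have hcA : φ c ≠ A := fun h => hc1 (φ.injective (h.trans hp₁.symm))
      refine hc ⟨?_, ?_⟩
      · rw [← φ.le_iff_le, ← φ.le_iff_le, hp₀, hp₁]
        exact hdown _ hcF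
      · rw [← φ.le_iff_le, ← φ.le_iff_le, hp₀, hp₁]
        exact hup _ hcF hcA
    · push Not at hq
      refine hF.1 ⟨OrderEmbedding.ofMapLEIff (fun p => if p = p₀ then A else φ p) ?_, ?_⟩
      · intro a b
        by_cases ha : a = p₀ <;> by_cases hb : b = p₀
        · subst ha; subst hb; simp
        · simp only [ha, hb, if_true, if_false]
          rw [← φ.le_iff_le, hp₀]
          exact hup _ (hmem b hb) (hq b)
        · simp only [ha, hb, if_true, if_false]
          rw [← φ.le_iff_le, hp₀]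
          exact hdown _ (hmem a ha)
        · simp only [ha, hb, if_false]
          exact φ.le_iff_le
      · intro p
        simp only [OrderEmbedding.coe_ofMapLEIff]
        by_cases h : p = p₀
        · simp only [h, if_true]; exact hAF
        · simp only [h, if_false]; exact hmem p h
  · push Not at hp
    refine hF.1 ⟨φ, fun p => ?_⟩
    rcases hφ p with h | h
    · exact absurd h (hp p)
    · exact h

/-- **Lower bound.** -/
theorem card_le_sq [Finite ι] (hP : TwinFree P) {F : Set (Set ι)} (hF : IsSaturated P F) :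
    Nat.card ι ≤ F.ncard ^ 2 := by
  classical
  choose A hA C hC hAC using exists_pair hP hF
  have hfin : F.Finite := Set.toFinite F
  let f : ι → F × F := fun i => (⟨A i, hA i⟩, ⟨C i, hC i⟩)
  have hf : Function.Injective f := by
    intro i j hij
    have h1 : A i = A j := congrArg (fun z : F × F => (z.1 : Set ι)) hij
    have h2 : C i = C j := congrArg (fun z : F × F => (z.2 : Set ι)) hij
    have h3 := hAC i
    rw [h1, h2, hAC j] at h3
    exact (Set.singleton_injective h3).symm
  have : Nat.card ι ≤ Nat.card (F × F) := Nat.card_le_card_of_injective f hf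
  rw [Nat.card_prod, Nat.card_coe_set_eq] at this
  rw [pow_two]
  exact this

end Pool.Agent.Saturation
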