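import Pool.Agent.Work.MP_4a1422_co.Upper

/-!
`√n ≤ sat*([2]^n, Nine) ≤ 70 √n`, and the failure of the linear dichotomy.
-/

open Filter Topology

namespace Pool.Agent.Saturation

open Elt

/-- the grid map: the first `m * m` points form the grid, the others are added to diagonal cells -/
def gridMap (m n : ℕ) (e : Fin n) : ℕ × ℕ :=
  if e.val < m * m then (e.val / m, e.val % m)
  else ((e.val - m * m) % (m - 1) + 1, (e.val - m * m) % (m - 1) + 1)

theorem gridMap_lt {m n : ℕ} {e : Fin n} (h : e.val < m * m) :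
    gridMap m n e = (e.val / m, e.val % m) := if_pos h

theorem gridMap_ge {m n : ℕ} {e : Fin n} (h : ¬ e.val < m * m) :
    gridMap m n e = ((e.val - m * m) % (m - 1) + 1, (e.val - m * m) % (m - 1) + 1) := if_neg h

theorem grid_gridMap {m n : ℕ} (hm : 5 ≤ m) (hn : m * m ≤ n) : Grid (gridMap m n) m m where
  hm := hm
  hm' := hm
  fst_lt e := by
    by_cases h : e.val < m * m
    · rw [gridMap_lt h]
      exact (Nat.div_lt_iff_lt_mul (by omega)).2 h
    · rw [gridMap_ge h]
      have := Nat.mod_lt (e.val - m * m) (show 0 < m - 1 by omega)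
      simp only
      omega
  snd_lt e := by
    by_cases h : e.val < m * m
    · rw [gridMap_lt h]
      exact Nat.mod_lt _ (by omega)
    · rw [gridMap_ge h]
      have := Nat.mod_lt (e.val - m * m) (show 0 < m - 1 by omega)
      simp only
      omega
  surj a b ha hb := by
    have h1 : m * a + b < m * m := by
      have : m * a + b < m * (a + 1) := by rw [Nat.mul_add]; omega
      exact this.trans_le (Nat.mul_le_mul_left _ ha)
    refine ⟨⟨m * a + b, by omega⟩, ?_⟩
    rw [gridMap_lt h1]
    simp only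
    rw [Nat.mul_add_div (by omega), Nat.div_eq_of_lt hb, Nat.mul_add_mod, Nat.mod_eq_of_lt hb]
    simp

theorem gridMap_inj_lt {m n : ℕ} {z w : Fin n} (hz : z.val < m * m) (hw : w.val < m * m)
    (h : gridMap m n z = gridMap m n w) : z = w := by
  rw [gridMap_lt hz, gridMap_lt hw, Prod.mk.injEq] at h
  apply Fin.ext
  rw [← Nat.div_add_mod z.val m, ← Nat.div_add_mod w.val m, h.1, h.2]

theorem gridMap_zero {m n : ℕ} {z : Fin n}
    (h : (gridMap m n z).1 = 0 ∨ (gridMap m n z).2 = 0) : z.val < m * m := by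
  by_contra hz
  rw [gridMap_ge hz] at h
  simp only at h
  omega

theorem gridMap_ne {m n : ℕ} {z : Fin n}
    (h : (gridMap m n z).1 ≠ (gridMap m n z).2) : z.val < m * m := by
  by_contra hz
  rw [gridMap_ge hz] at h
  exact h rfl

theorem card_cell {m n : ℕ} (hm : 5 ≤ m) (hn : n < (m + 1) * (m + 1)) (z : ℕ) :
    (Finset.univ.filter fun e => gridMap m n e = (z, z)).card ≤ 4 := by
  classical
  let T : Finset ℕ := {m * z + z, m * m + (z - 1), m * m + (m - 1 + (z - 1)),
    m * m + ((m - 1) * 2 + (z - 1))}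
  have hT : T.card ≤ 4 := Finset.card_le_four
  refine (Finset.card_le_card_of_injOn (fun e : Fin n => e.val) ?_ ?_).trans hT
  · intro e he
    have he' : gridMap m n e = (z, z) := (Finset.mem_filter.1 he).2
    by_cases h : e.val < m * m
    · rw [gridMap_lt h, Prod.mk.injEq] at he'
      have : e.val = m * z + z := by
        conv_lhs => rw [← Nat.div_add_mod e.val m]
        rw [he'.1, he'.2]
      simp only [T, Finset.coe_insert, Finset.coe_singleton, Set.mem_insert_iff,
        Set.mem_singleton_iff]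
      exact Or.inl this
    · rw [gridMap_ge h, Prod.mk.injEq] at he'
      have h1 := he'.1
      have h2 := Nat.div_add_mod (e.val - m * m) (m - 1)
      have h3 := e.isLt
      have h4 : (m + 1) * (m + 1) = m * m + 2 * m + 1 := by ring
      have h5 : e.val - m * m ≤ 2 * m := by omega
      have h6 : (e.val - m * m) / (m - 1) < 3 := by
        rw [Nat.div_lt_iff_lt_mul (by omega)]
        omega
      have h7 : (e.val - m * m) % (m - 1) = z - 1 := by omega
      simp only [T, Finset.coe_insert, Finset.coe_singleton, Set.mem_insert_iff,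
        Set.mem_singleton_iff]
      generalize hq : (e.val - m * m) / (m - 1) = k at *
      interval_cases k
      · right; left; omega
      · right; right; left; omega
      · right; right; right; omega
  · intro a _ b _ hab
    exact Fin.ext hab

/-- **Upper bound for all `n ≥ 25`.** -/
theorem sat_le (n : ℕ) (hn : 25 ≤ n) : satNumber 2 n Nine ≤ 70 * Nat.sqrt n := by
  have hm : 5 ≤ Nat.sqrt n := Nat.le_sqrt.2 (by omega)
  have h1 : Nat.sqrt n * Nat.sqrt n ≤ n := Nat.sqrt_le n
  have h2 : n < (Nat.sqrt n + 1) * (Nat.sqrt n + 1) := Nat.lt_succ_sqrt n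
  have h := upper_of_grid (grid_gridMap hm h1)
    (fun z w hzw h0 => gridMap_inj_lt (gridMap_zero h0) (gridMap_zero (hzw ▸ h0)) hzw)
    (fun z w hzw h0 => gridMap_inj_lt (gridMap_ne h0) (gridMap_ne (hzw ▸ h0)) hzw)
    (fun z _ => card_cell hm h2 z)
  omega

/-- **Sharper upper bound for squares.** -/
theorem sat_sq_le (m : ℕ) (hm : 5 ≤ m) : satNumber 2 (m * m) Nine ≤ 4 * m + 6 :=
  upper_of_bij (grid_gridMap hm le_rfl)
    (fun z w hzw => gridMap_inj_lt z.isLt w.isLt hzw)

/-- **Lower bound.** -/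
theorem le_sat_sq (n : ℕ) : n ≤ satNumber 2 n Nine ^ 2 :=
  haveI : Nonempty Nine := ⟨.t⟩
  le_satNumber_sq nine_twinFree n

theorem sat_unbounded : ¬ ∃ K : ℕ, ∀ n, satNumber 2 n Nine ≤ K := by
  rintro ⟨K, hK⟩
  have h1 := le_sat_sq (K ^ 2 + 1)
  have h2 := Nat.pow_le_pow_left (hK (K ^ 2 + 1)) 2
  omega

theorem sat_div_tendsto :
    Tendsto (fun n : ℕ => (satNumber 2 n Nine : ℝ) / n) atTop (𝓝 0) := by
  have hlim : Tendsto (fun n : ℕ => 70 / Real.sqrt (n : ℝ)) atTop (𝓝 0) :=
    Tendsto.div_atTop tendsto_const_nhds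
      (Real.tendsto_sqrt_atTop.comp tendsto_natCast_atTop_atTop)
  refine squeeze_zero' (Eventually.of_forall fun n => by positivity) ?_ hlim
  filter_upwards [eventually_ge_atTop 25] with n hn
  have hn0 : (0 : ℝ) < n := by exact_mod_cast (by omega : 0 < n)
  have hs : 0 < Real.sqrt (n : ℝ) := Real.sqrt_pos.2 hn0
  rw [div_le_div_iff₀ hn0 hs]
  have h1 : (satNumber 2 n Nine : ℝ) ≤ 70 * Real.sqrt n := by
    have h2 : (satNumber 2 n Nine : ℝ) ≤ 70 * (Nat.sqrt n : ℝ) := by
      exact_mod_cast sat_le n hn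
    have h3 : (Nat.sqrt n : ℝ) ≤ Real.sqrt n := Real.nat_sqrt_le_real_sqrt
    linarith
  calc (satNumber 2 n Nine : ℝ) * Real.sqrt n ≤ 70 * Real.sqrt n * Real.sqrt n :=
        mul_le_mul_of_nonneg_right h1 hs.le
    _ = 70 * n := by rw [mul_assoc, Real.mul_self_sqrt hn0.le]

theorem not_linearDichotomy : ¬ LinearDichotomy := by
  intro h
  rcases h Nine 2 le_rfl with h1 | ⟨c, hc, h1⟩
  · exact sat_unbounded h1
  · exact hc.ne' (tendsto_nhds_unique h1 sat_div_tendsto)

end Pool.Agent.Saturation
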