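import Pool.Agent.Work.MP_4a1422_co.Lower

/-!
Transfer between `Fin n → Fin 2` and `Set (Fin n)`, greedy completion, bounds for `satNumber`.
-/

namespace Pool.Agent.Saturation

/-- Subsets of `ι` and `0`-`1` functions on `ι`. -/
noncomputable def iso (ι : Type*) : (ι → Fin 2) ≃o Set ι := by
  classical
  exact
  { toFun := fun f => {i | f i = 1}
    invFun := fun s i => if i ∈ s then 1 else 0
    left_inv := by
      intro f
      funext i
      by_cases h : f i = 1
      · simp [h]
      · simp only [Set.mem_ofPred_eq, h, if_false]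
        have := (f i).isLt
        have h2 : (f i).val ≠ 1 := fun hh => h (Fin.ext hh)
        apply Fin.ext
        simp only [Fin.val_zero]
        omega
    right_inv := by
      intro s
      ext i
      by_cases h : i ∈ s <;> simp [h]
    map_rel_iff' := by
      intro f g
      constructor
      · intro hs i
        by_cases h : f i = 1
        · have : g i = 1 := hs (show i ∈ {i | f i = 1} from h)
          rw [h, this]
        · have := (f i).isLt
          have h2 : (f i).val ≠ 1 := fun hh => h (Fin.ext hh)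
          rw [Fin.le_def]
          omega
      · intro hle i hi
        have h1 : f i = 1 := hi
        have h2 := hle i
        rw [h1, Fin.le_def] at h2
        have := (g i).isLt
        show g i = 1
        apply Fin.ext
        simp only [Fin.val_one] at *
        omega }

theorem HasCopy.mono {P X : Type*} [LE P] [LE X] {F F' : Set X} (h : HasCopy P F)
    (hs : F ⊆ F') : HasCopy P F' := by
  obtain ⟨φ, hφ⟩ := h
  exact ⟨φ, fun p => hs (hφ p)⟩

/-- Greedy completion. -/
theorem exists_completion {P X : Type*} [LE P] [LE X] [Finite X] (F₀ T : Set X)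
    (h₀ : ¬ HasCopy P F₀) (hT : ∀ G, G ∉ F₀ → G ∉ T → HasCopy P (insert G F₀)) :
    ∃ F : Set X, F₀ ⊆ F ∧ F ⊆ F₀ ∪ T ∧ IsSaturated P F := by
  have hne : {F : Set X | F₀ ⊆ F ∧ F ⊆ F₀ ∪ T ∧ ¬ HasCopy P F}.Nonempty :=
    ⟨F₀, subset_rfl, Set.subset_union_left, h₀⟩
  obtain ⟨F, hF⟩ :=
    (Set.toFinite {F : Set X | F₀ ⊆ F ∧ F ⊆ F₀ ∪ T ∧ ¬ HasCopy P F}).exists_maximal hne
  obtain ⟨h1, h2, h3⟩ := hF.1
  refine ⟨F, h1, h2, h3, fun G hG => ?_⟩
  by_cases hGT : G ∈ T
  · by_contra hcon
    have hmem : insert G F ∈ {F : Set X | F₀ ⊆ F ∧ F ⊆ F₀ ∪ T ∧ ¬ HasCopy P F} :=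
      ⟨h1.trans (Set.subset_insert _ _), Set.insert_subset (Or.inr hGT) h2, hcon⟩
    exact hG (hF.2 hmem (Set.subset_insert _ _) (Set.mem_insert _ _))
  · exact (hT G (fun h => hG (h1 h)) hGT).mono (Set.insert_subset_insert h1)

theorem exists_saturated {P X : Type*} [LE P] [LE X] [Nonempty P] [Finite X] :
    ∃ F : Set X, IsSaturated P F := by
  obtain ⟨F, -, -, hF⟩ := exists_completion (P := P) (∅ : Set X) Set.univ
    (fun ⟨φ, hφ⟩ => (hφ (Classical.arbitrary P)).elim) (fun G _ h => absurd (Set.mem_univ G) h)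
  exact ⟨F, hF⟩

theorem satNumber_nonempty (t n : ℕ) (P : Type*) [LE P] [Nonempty P] :
    {k | ∃ F : Finset (Fin n → Fin t),
      IsSaturated P (F : Set (Fin n → Fin t)) ∧ F.card = k}.Nonempty := by
  classical
  obtain ⟨F, hF⟩ := exists_saturated (P := P) (X := Fin n → Fin t)
  exact ⟨_, F.toFinite.toFinset, by rw [Set.Finite.coe_toFinset]; exact hF, rfl⟩

theorem satNumber_le {n : ℕ} {P : Type*} [LE P] {F : Set (Set (Fin n))}
    (hF : IsSaturated P F) : satNumber 2 n P ≤ F.ncard := by
  classical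
  have h1 := hF.map (iso (Fin n)).symm
  refine Nat.sInf_le ⟨((iso (Fin n)).symm '' F).toFinite.toFinset,
    by rw [Set.Finite.coe_toFinset]; exact h1, ?_⟩
  rw [← Set.ncard_eq_toFinset_card]
  exact Set.ncard_image_of_injective _ (iso (Fin n)).symm.injective

theorem le_satNumber_sq {P : Type*} [PartialOrder P] [Nonempty P] (hP : TwinFree P) (n : ℕ) :
    n ≤ satNumber 2 n P ^ 2 := by
  classical
  obtain ⟨F, hF, hk⟩ := Nat.sInf_mem (satNumber_nonempty 2 n P)
  have h1 := hF.map (iso (Fin n))
  have h2 := card_le_sq hP h1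
  rw [Nat.card_eq_fintype_card, Fintype.card_fin,
    Set.ncard_image_of_injective _ (iso (Fin n)).injective, Set.ncard_coe_finset, hk] at h2
  exact h2

end Pool.Agent.Saturation
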