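import Pool.Agent.Work.MP_4a1422_co.Forms

/-!
Sets contained in one row and meeting exactly two columns; duality and transposition.
-/

namespace Pool.Agent.Saturation

open Elt

variable {E : Type*} {π : E → ℕ × ℕ} {m m' : ℕ}

theorem rowpair (h : Grid π m m')
    (hs : ∀ z w, π z = π w → ((π z).1 = 0 ∨ (π z).2 = 0) → z = w)
    {G : Set E} (hG : G ∉ Fam π m m') {d : ℕ} (hd : d < m) (hGd : G ⊆ toSet π (R d))
    {c c' : ℕ} (hc : c < m') (hc' : c' < m') (hcc : c ≠ c')
    (hmc : ¬ G ⊆ toSet π (D c)) (hmc' : ¬ G ⊆ toSet π (D c'))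
    (hmo : ∀ b < m', b ≠ c → b ≠ c' → G ⊆ toSet π (D b)) :
    HasCopy Nine (insert G (Fam π m m')) := by
  have hm := h.hm
  have hm' := h.hm'
  obtain ⟨z, hzG, hz⟩ := Set.not_subset.1 hmc
  obtain ⟨z', hzG', hz'⟩ := Set.not_subset.1 hmc'
  have hzd := hGd hzG
  have hzd' := hGd hzG'
  simp only [toSet, cell, Set.mem_ofPred_eq, not_not] at hz hz' hzd hzd'
  -- nonempty rows are not contained in `G`
  have hrow : ∀ a < m, a ≠ d → ∀ b < m', ∃ w, w ∉ G ∧ π w = (a, b) := by
    intro a ha had b hb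
    obtain ⟨w, hw⟩ := h.surj a b ha hb
    refine ⟨w, fun hwG => ?_, hw⟩
    have := hGd hwG
    simp only [toSet, cell, Set.mem_ofPred_eq, hw] at this
    exact had this
  have iR : ∀ a < m, a ≠ d → Inc π G (R a) := by
    intro a ha had
    refine ⟨fun hh => ?_, fun hh => ?_⟩
    · obtain ⟨w, hwG, hw⟩ := hrow a ha had 0 (by omega)
      exact hwG (hh (by simp [toSet, cell, hw]))
    · have := hh hzG
      simp only [toSet, cell, Set.mem_ofPred_eq] at this
      omega
  obtain ⟨d₁, hd₁, hd₁d⟩ : ∃ d₁ < m, d₁ ≠ d := by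
    by_cases h0 : d = 0
    · exact ⟨1, by omega, by omega⟩
    · exact ⟨0, by omega, by omega⟩
  have iC : ∀ b < m', Inc π G (C b) := by
    intro b hb
    refine ⟨fun hh => ?_, fun hh => ?_⟩
    · obtain ⟨w, hwG, hw⟩ := hrow d₁ hd₁ hd₁d b hb
      exact hwG (hh (by simp [toSet, cell, hw]))
    · have h1 := hh hzG
      have h2 := hh hzG'
      simp only [toSet, cell, Set.mem_ofPred_eq] at h1 h2
      omega
  have nD : ∀ b < m', ¬ toSet π (D b) ⊆ G := by
    intro b hb hh
    obtain ⟨b₁, hb₁, hb₁b⟩ : ∃ b₁ < m', b₁ ≠ b := by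
      by_cases h0 : b = 0
      · exact ⟨1, by omega, by omega⟩
      · exact ⟨0, by omega, by omega⟩
    obtain ⟨w, hwG, hw⟩ := hrow d₁ hd₁ hd₁d b₁ hb₁
    exact hwG (hh (by simp [toSet, cell, hw, hb₁b]))
  by_cases hd0 : d = 0
  · subst hd0
    have iS0 : Inc π G (S 0) := by
      refine ⟨fun hh => ?_, fun hh => ?_⟩
      · obtain ⟨w, hwG, hw⟩ := hrow 1 (by omega) (by omega) 0 (by omega)
        exact hwG (hh (by simp [toSet, cell, hw]))
      · have := hh hzG
        simp only [toSet, cell, Set.mem_ofPred_eq] at this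
        omega
    have iB : Inc π G B := by
      refine ⟨fun hh => ?_, fun hh => ?_⟩
      · obtain ⟨w, hwG, hw⟩ := hrow 1 (by omega) (by omega) 0 (by omega)
        exact hwG (hh (by simp [toSet, cell, hw]))
      · have := hh hzG
        simp only [toSet, cell, Set.mem_ofPred_eq] at this
        omega
    have iA : Inc π G A := by
      have hnA : ¬ G = toSet π A := fun hh => hG (Or.inr (Or.inr ⟨A, trivial, hh⟩))
      have hAG : ¬ toSet π A ⊆ G := by
        intro hh
        obtain ⟨w1, hw1⟩ := h.surj 0 1 (by omega) (by omega)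
        obtain ⟨w2, hw2⟩ := h.surj 0 2 (by omega) (by omega)
        have h1 : w1 ∈ G := hh (by simp [toSet, cell, hw1])
        have h2 : w2 ∈ G := hh (by simp [toSet, cell, hw2])
        have e1 : 1 = c ∨ 1 = c' := by
          by_contra hcon
          push Not at hcon
          have := hmo 1 (by omega) hcon.1 hcon.2 h1
          simp [toSet, cell, hw1] at this
        have e2 : 2 = c ∨ 2 = c' := by
          by_contra hcon
          push Not at hcon
          have := hmo 2 (by omega) hcon.1 hcon.2 h2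
          simp [toSet, cell, hw2] at this
        apply hnA
        refine Set.Subset.antisymm (fun w hw => ?_) hh
        have hw0 := hGd hw
        have hwc : (π w).2 = c ∨ (π w).2 = c' := by
          by_contra hcon
          push Not at hcon
          have := hmo (π w).2 (h.snd_lt w) hcon.1 hcon.2 hw
          simp [toSet, cell] at this
        simp only [toSet, cell, Set.mem_ofPred_eq] at hw0 ⊢
        omega
      refine ⟨hAG, fun hh => ?_⟩
      have h1 := hh hzG
      have h2 := hh hzG'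
      simp only [toSet, cell, Set.mem_ofPred_eq] at h1 h2
      apply hnA
      refine Set.Subset.antisymm hh (fun w hw => ?_)
      simp only [toSet, cell, Set.mem_ofPred_eq] at hw
      have : (π w).2 = c ∨ (π w).2 = c' := by omega
      rcases this with h3 | h3
      · have : w = z := hs w z (Prod.ext (by omega) (by omega)) (Or.inl hw.1)
        rw [this]; exact hzG
      · have : w = z' := hs w z' (Prod.ext (by omega) (by omega)) (Or.inl hw.1)
        rw [this]; exact hzG'
    have iC0 := iC 0 (by omega)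
    have iC1 := iC 1 (by omega)
    have iC2 := iC 2 (by omega)
    have iC3 := iC 3 (by omega)
    refine forms_of h hG (some (R 0)) none (some A) (some B) (some (S 0)) (some (C 0))
      (some (C 1)) (some (C 2)) (some (C 3)) ?_ ?_ ?_ ?_ ?_ ?_ ?_ ?_ ?_
      ?_ ?_ ?_ ?_ ?_ ?_ ?_ ?_ ?_ ?_ ?_ ?_ ?_ ?_ ?_ ?_ ?_ ?_ ?_ ?_ ?_ ?_ ?_ ?_ ?_ ?_ ?_
      ?_ ?_ ?_ ?_ ?_ ?_ ?_ ?_ ?_ <;>
    first
    | assumption
    | (simp only [LTo, INo, oko, lt, inc, ok]; omega)
    | (simp [LTo, INo, oko, lt, inc, ok]; done)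
  · obtain ⟨x, y, v, hx, hy, hv, hxy, hxv, hyv, hx0, hy0, hv0, hxd, hyd, hvd⟩ :
        ∃ x y v, x < m ∧ y < m ∧ v < m ∧ x ≠ y ∧ x ≠ v ∧ y ≠ v ∧ x ≠ 0 ∧ y ≠ 0 ∧ v ≠ 0 ∧
          x ≠ d ∧ y ≠ d ∧ v ≠ d := by
      by_cases h1 : d = 1
      · exact ⟨2, 3, 4, by omega, by omega, by omega, by omega, by omega, by omega, by omega,
          by omega, by omega, by omega, by omega, by omega⟩
      · by_cases h2 : d = 2
        · exact ⟨1, 3, 4, by omega, by omega, by omega, by omega, by omega, by omega, by omega,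
            by omega, by omega, by omega, by omega, by omega⟩
        · by_cases h3 : d = 3
          · exact ⟨1, 2, 4, by omega, by omega, by omega, by omega, by omega, by omega,
              by omega, by omega, by omega, by omega, by omega, by omega⟩
          · exact ⟨1, 2, 3, by omega, by omega, by omega, by omega, by omega, by omega,
              by omega, by omega, by omega, by omega, by omega, by omega⟩
    have iRx := iR x hx hxd
    have iRy := iR y hy hyd
    have iRv := iR v hv hvd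
    have iR0 := iR 0 (by omega) (Ne.symm hd0)
    have iA : Inc π G A := by
      refine ⟨fun hh => ?_, fun hh => ?_⟩
      · obtain ⟨w, hwG, hw⟩ := hrow 0 (by omega) (Ne.symm hd0) 1 (by omega)
        exact hwG (hh (by simp [toSet, cell, hw]))
      · have := hh hzG
        simp only [toSet, cell, Set.mem_ofPred_eq] at this
        omega
    -- a column outside `{1, 2}` met by `G`, or the columns are `1` and `2`
    by_cases hw : ∃ w, w < m' ∧ ¬ G ⊆ toSet π (D w) ∧ (w = c ∨ w = c') ∧ w ≠ 1 ∧ w ≠ 2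
    · obtain ⟨w, hwm, hwD, hwc, hw1, hw2⟩ := hw
      obtain ⟨k, hk, hk12, hkc, hkc'⟩ : ∃ k, k < m' ∧ (k = 1 ∨ k = 2) ∧ k ≠ c ∧ k ≠ c' := by
        by_cases h1 : 1 ≠ c ∧ 1 ≠ c'
        · exact ⟨1, by omega, by omega, by omega, by omega⟩
        · exact ⟨2, by omega, by omega, by omega, by omega⟩
      have hGk : G ⊆ toSet π (D k) := hmo k hk hkc hkc'
      have hwk : w ≠ k := by omega
      have iCw := iC w hwm
      have iDw : Inc π G (D w) := ⟨nD w hwm, hwD⟩
      refine forms_of h hG (some (D k)) none (some (C w)) (some A) (some (R 0)) (some (D w))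
        (some (R x)) (some (R y)) (some (R v)) ?_ ?_ ?_ ?_ ?_ ?_ ?_ ?_ ?_
        ?_ ?_ ?_ ?_ ?_ ?_ ?_ ?_ ?_ ?_ ?_ ?_ ?_ ?_ ?_ ?_ ?_ ?_ ?_ ?_ ?_ ?_ ?_ ?_ ?_ ?_ ?_
        ?_ ?_ ?_ ?_ ?_ ?_ ?_ ?_ ?_ <;>
      first
      | assumption
      | (simp only [LTo, INo, oko, lt, inc, ok]; omega)
      | (simp [LTo, INo, oko, lt, inc, ok]; done)
    · push Not at hw
      have e1 : c = 1 ∨ c = 2 := by
        by_contra hcon
        push Not at hcon
        exact hcon.2 (hw c hc hmc (Or.inl rfl) hcon.1)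
      have e2 : c' = 1 ∨ c' = 2 := by
        by_contra hcon
        push Not at hcon
        exact hcon.2 (hw c' hc' hmc' (Or.inr rfl) hcon.1)
      have hGD0 : G ⊆ toSet π (D 0) := hmo 0 (by omega) (by omega) (by omega)
      have iC0 := iC 0 (by omega)
      have hD : ∀ b, b = 1 ∨ b = 2 → Inc π G (D b) := by
        intro b hb
        refine ⟨nD b (by omega), ?_⟩
        have : b = c ∨ b = c' := by omega
        rcases this with h3 | h3
        · rw [h3]; exact hmc
        · rw [h3]; exact hmc'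
      have iD1 := hD 1 (Or.inl rfl)
      have iD2 := hD 2 (Or.inr rfl)
      refine forms_of h hG (some (D 0)) none (some A) (some (C 0)) (some (D 1)) (some (D 2))
        (some (R x)) (some (R y)) (some (R v)) ?_ ?_ ?_ ?_ ?_ ?_ ?_ ?_ ?_
        ?_ ?_ ?_ ?_ ?_ ?_ ?_ ?_ ?_ ?_ ?_ ?_ ?_ ?_ ?_ ?_ ?_ ?_ ?_ ?_ ?_ ?_ ?_ ?_ ?_ ?_ ?_
        ?_ ?_ ?_ ?_ ?_ ?_ ?_ ?_ ?_ <;>
      first
      | assumption
      | (simp only [LTo, INo, oko, lt, inc, ok]; omega)
      | (simp [LTo, INo, oko, lt, inc, ok]; done)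

/-! ### duality -/

/-- complement on symbols -/
def co : Elt → Elt
  | R a => S a
  | S a => R a
  | C a => D a
  | D a => C a
  | A => A'
  | A' => A
  | B => B'
  | B' => B

theorem toSet_co (e : Elt) : toSet π (co e) = (toSet π e)ᶜ := by
  ext z
  rcases e with a | a | a | a | _ | _ | _ | _ <;> simp [toSet, co, cell] <;> tauto

theorem ok_co {e : Elt} (he : ok m m' e) : ok m m' (co e) := by
  rcases e with a | a | a | a | _ | _ | _ | _ <;> simp only [ok, co] at * <;> exact he

theorem compl_mem {G : Set E} (hG : G ∈ Fam π m m') : Gᶜ ∈ Fam π m m' := by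
  rcases hG with h | h | ⟨e, he, h⟩
  · exact Or.inr (Or.inl (by rw [h]; simp))
  · exact Or.inl (by rw [h]; simp)
  · exact Or.inr (Or.inr ⟨co e, ok_co he, by rw [h, toSet_co]⟩)

theorem compl_mem_iff {G : Set E} : Gᶜ ∈ Fam π m m' ↔ G ∈ Fam π m m' :=
  ⟨fun h => by simpa using compl_mem h, compl_mem⟩

/-- the anti-automorphism of `Nine` -/
def sig : Nine → Nine
  | .t => .u | .x => .p | .y => .q | .u => .t | .p => .x | .q => .y
  | .e₁ => .e₁ | .e₂ => .e₂ | .e₃ => .e₃

theorem sig_le : ∀ a b : Nine, sig b ≤ sig a ↔ a ≤ b := by decide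

theorem dual {G : Set E} (h : HasCopy Nine (insert Gᶜ (Fam π m m'))) :
    HasCopy Nine (insert G (Fam π m m')) := by
  obtain ⟨φ, hφ⟩ := h
  refine ⟨OrderEmbedding.ofMapLEIff (fun a => (φ (sig a))ᶜ) ?_, ?_⟩
  · intro a b
    simp only [Set.compl_subset_compl]
    rw [← sig_le a b, ← φ.le_iff_le]
  · intro a
    simp only [OrderEmbedding.coe_ofMapLEIff]
    rcases hφ (sig a) with h1 | h1
    · left; rw [h1]; simp
    · right; exact compl_mem h1

/-! ### transposition -/

/-- exchange of rows and columns on symbols -/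
def sw : Elt → Elt
  | R a => C a
  | C a => R a
  | S a => D a
  | D a => S a
  | A => B
  | B => A
  | A' => B'
  | B' => A'

theorem toSet_sw (e : Elt) : toSet (Prod.swap ∘ π) (sw e) = toSet π e := by
  ext z
  rcases e with a | a | a | a | _ | _ | _ | _ <;> simp [toSet, sw, cell]

theorem ok_sw {e : Elt} (he : ok m m' e) : ok m' m (sw e) := by
  rcases e with a | a | a | a | _ | _ | _ | _ <;> simp only [ok, sw] at * <;> exact he

theorem sw_sw (e : Elt) : sw (sw e) = e := by
  rcases e with a | a | a | a | _ | _ | _ | _ <;> rfl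

theorem Fam_swap : Fam (Prod.swap ∘ π) m' m = Fam π m m' := by
  ext s
  constructor
  · rintro (h | h | ⟨e, he, h⟩)
    · exact Or.inl h
    · exact Or.inr (Or.inl h)
    · refine Or.inr (Or.inr ⟨sw e, ok_sw he, ?_⟩)
      rw [h, ← toSet_sw (π := π) (sw e), sw_sw]
  · rintro (h | h | ⟨e, he, h⟩)
    · exact Or.inl h
    · exact Or.inr (Or.inl h)
    · exact Or.inr (Or.inr ⟨sw e, ok_sw he, by rw [h, toSet_sw]⟩)

theorem Grid.swap (h : Grid π m m') : Grid (Prod.swap ∘ π) m' m where
  hm := h.hm'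
  hm' := h.hm
  fst_lt e := h.snd_lt e
  snd_lt e := h.fst_lt e
  surj a b ha hb := by
    obtain ⟨z, hz⟩ := h.surj b a hb ha
    exact ⟨z, by simp [hz]⟩

end Pool.Agent.Saturation
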