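import Pool.Agent.Work.MP_4a1422_co.AllSets
import Pool.Agent.Work.MP_4a1422_co.Num

/-!
The upper bound for all `n`.
-/

namespace Pool.Agent.Saturation

open Elt

variable {E : Type*} {π : E → ℕ × ℕ} {m m' : ℕ}

open Classical in
/-- the family as a finite set -/
noncomputable def FamF (π : E → ℕ × ℕ) (m m' : ℕ) : Finset (Set E) :=
  {∅, Set.univ, toSet π A, toSet π A', toSet π B, toSet π B'} ∪
    ((Finset.range m).image (fun a => toSet π (R a)) ∪
    ((Finset.range m).image (fun a => toSet π (S a)) ∪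
    ((Finset.range m').image (fun a => toSet π (C a)) ∪
    (Finset.range m').image (fun a => toSet π (D a)))))

theorem Fam_sub_FamF : Fam π m m' ⊆ (FamF π m m' : Set (Set E)) := by
  classical
  rintro s (h | h | ⟨e, he, h⟩)
  · simp [FamF, h]
  · simp [FamF, h]
  · rcases e with a | a | a | a | _ | _ | _ | _ <;> simp only [ok] at he <;>
    simp only [FamF, Finset.coe_union, Set.mem_union, Finset.mem_coe, Finset.mem_image,
      Finset.mem_range, Finset.mem_insert, Finset.mem_singleton, h]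
    · exact Or.inr (Or.inl ⟨a, he, rfl⟩)
    · exact Or.inr (Or.inr (Or.inl ⟨a, he, rfl⟩))
    · exact Or.inr (Or.inr (Or.inr (Or.inl ⟨a, he, rfl⟩)))
    · exact Or.inr (Or.inr (Or.inr (Or.inr ⟨a, he, rfl⟩)))
    · simp
    · simp
    · simp
    · simp

theorem card_FamF : (FamF π m m').card ≤ 2 * m + 2 * m' + 6 := by
  classical
  unfold FamF
  refine (Finset.card_union_le _ _).trans ?_
  have h6 : ({∅, Set.univ, toSet π A, toSet π A', toSet π B, toSet π B'} :
      Finset (Set E)).card ≤ 6 := Finset.card_le_six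
  have h1 := (Finset.card_image_le (s := Finset.range m) (f := fun a => toSet π (R a)))
  have h2 := (Finset.card_image_le (s := Finset.range m) (f := fun a => toSet π (S a)))
  have h3 := (Finset.card_image_le (s := Finset.range m') (f := fun a => toSet π (C a)))
  have h4 := (Finset.card_image_le (s := Finset.range m') (f := fun a => toSet π (D a)))
  rw [Finset.card_range] at h1 h2 h3 h4
  have h5 := Finset.card_union_le ((Finset.range m).image (fun a => toSet π (R a)))
    ((Finset.range m).image (fun a => toSet π (S a)) ∪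
    ((Finset.range m').image (fun a => toSet π (C a)) ∪
    (Finset.range m').image (fun a => toSet π (D a))))
  have h7 := Finset.card_union_le ((Finset.range m).image (fun a => toSet π (S a)))
    ((Finset.range m').image (fun a => toSet π (C a)) ∪
    (Finset.range m').image (fun a => toSet π (D a)))
  have h8 := Finset.card_union_le ((Finset.range m').image (fun a => toSet π (C a)))
    ((Finset.range m').image (fun a => toSet π (D a)))
  omega

/-- structure of the exceptional sets -/
theorem exc_struct (h : Grid π m m)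
    (hs : ∀ z w, π z = π w → (π z).1 ≠ (π z).2 → z = w)
    {G : Set E} (hG : G ∉ Fam π m m) (hE : Exc π m m G) :
    ∃ z < m, ∃ Y : Set E, (∀ w ∈ Y, π w = (z, z)) ∧ Y.Nonempty ∧ (∃ w, π w = (z, z) ∧ w ∉ Y) ∧
      (G = toSet π (R z) \ Y ∨ G = toSet π (S z) ∪ Y ∨
        G = toSet π (C z) \ Y ∨ G = toSet π (D z) ∪ Y) := by
  have mR : ∀ {a w}, w ∈ toSet π (R a) ↔ (π w).1 = a := fun {a w} => Iff.rfl
  have mS : ∀ {a w}, w ∈ toSet π (S a) ↔ (π w).1 ≠ a := fun {a w} => Iff.rfl
  have mC : ∀ {a w}, w ∈ toSet π (C a) ↔ (π w).2 = a := fun {a w} => Iff.rfl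
  have mD : ∀ {a w}, w ∈ toSet π (D a) ↔ (π w).2 ≠ a := fun {a w} => Iff.rfl
  rcases hE with ⟨hC, z, hz, hh | hh⟩ | ⟨hR, z, hz, hh | hh⟩
  · refine ⟨z, hz, toSet π (R z) \ G, ?_, ?_, ?_, Or.inl ?_⟩
    · rintro w ⟨hw, hwG⟩
      by_contra hne
      have hw' : (π w).1 = z := hw
      have h2 : (π w).2 ≠ z := fun h2 => hne (Prod.ext hw' h2)
      obtain ⟨v, hvG, hv⟩ := Set.not_subset.1 (hC (π w).2 (h.snd_lt w)).2
      rw [mD, not_not] at hv
      have hv1 : (π v).1 = z := hh hvG
      have : w = v := hs w v (Prod.ext (by rw [hw', hv1]) hv.symm) (by omega)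
      exact hwG (this ▸ hvG)
    · rw [Set.nonempty_iff_ne_empty]
      intro he
      exact hG (Or.inr (Or.inr ⟨R z, hz, Set.Subset.antisymm hh (Set.sdiff_eq_empty.1 he)⟩))
    · obtain ⟨v, hvG, hv⟩ := Set.not_subset.1 (hC z hz).2
      rw [mD, not_not] at hv
      exact ⟨v, Prod.ext (hh hvG) hv, fun h1 => h1.2 hvG⟩
    · ext w
      constructor
      · exact fun hw => ⟨hh hw, fun h1 => h1.2 hw⟩
      · rintro ⟨h1, h2⟩
        by_contra hw
        exact h2 ⟨h1, hw⟩
  · refine ⟨z, hz, G \ toSet π (S z), ?_, ?_, ?_, Or.inr (Or.inl ?_)⟩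
    · rintro w ⟨hwG, hw⟩
      rw [mS, not_not] at hw
      by_contra hne
      have h2 : (π w).2 ≠ z := fun h2 => hne (Prod.ext hw h2)
      refine (hC (π w).2 (h.snd_lt w)).1 fun v hv => ?_
      rw [mC] at hv
      by_cases hv1 : (π v).1 = z
      · have : w = v := hs w v (Prod.ext (by rw [hw, hv1]) hv.symm) (by omega)
        exact this ▸ hwG
      · exact hh hv1
    · rw [Set.nonempty_iff_ne_empty]
      intro he
      exact hG (Or.inr (Or.inr ⟨S z, hz, Set.Subset.antisymm (Set.sdiff_eq_empty.1 he) hh⟩))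
    · obtain ⟨v, hv, hvG⟩ := Set.not_subset.1 (hC z hz).1
      rw [mC] at hv
      refine ⟨v, Prod.ext ?_ hv, fun h1 => hvG h1.1⟩
      by_contra h1
      exact hvG (hh h1)
    · ext w
      constructor
      · intro hw
        by_cases h1 : w ∈ toSet π (S z)
        · exact Or.inl h1
        · exact Or.inr ⟨hw, h1⟩
      · rintro (h1 | h1)
        · exact hh h1
        · exact h1.1
  · refine ⟨z, hz, toSet π (C z) \ G, ?_, ?_, ?_, Or.inr (Or.inr (Or.inl ?_))⟩
    · rintro w ⟨hw, hwG⟩
      by_contra hne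
      have hw' : (π w).2 = z := hw
      have h2 : (π w).1 ≠ z := fun h2 => hne (Prod.ext h2 hw')
      obtain ⟨v, hvG, hv⟩ := Set.not_subset.1 (hR (π w).1 (h.fst_lt w)).2
      rw [mS, not_not] at hv
      have hv1 : (π v).2 = z := hh hvG
      have : w = v := hs w v (Prod.ext hv.symm (by rw [hw', hv1])) (by omega)
      exact hwG (this ▸ hvG)
    · rw [Set.nonempty_iff_ne_empty]
      intro he
      exact hG (Or.inr (Or.inr ⟨C z, hz, Set.Subset.antisymm hh (Set.sdiff_eq_empty.1 he)⟩))
    · obtain ⟨v, hvG, hv⟩ := Set.not_subset.1 (hR z hz).2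
      rw [mS, not_not] at hv
      exact ⟨v, Prod.ext hv (hh hvG), fun h1 => h1.2 hvG⟩
    · ext w
      constructor
      · exact fun hw => ⟨hh hw, fun h1 => h1.2 hw⟩
      · rintro ⟨h1, h2⟩
        by_contra hw
        exact h2 ⟨h1, hw⟩
  · refine ⟨z, hz, G \ toSet π (D z), ?_, ?_, ?_, Or.inr (Or.inr (Or.inr ?_))⟩
    · rintro w ⟨hwG, hw⟩
      rw [mD, not_not] at hw
      by_contra hne
      have h2 : (π w).1 ≠ z := fun h2 => hne (Prod.ext h2 hw)
      refine (hR (π w).1 (h.fst_lt w)).1 fun v hv => ?_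
      rw [mR] at hv
      by_cases hv1 : (π v).2 = z
      · have : w = v := hs w v (Prod.ext hv.symm (by rw [hw, hv1])) (by omega)
        exact this ▸ hwG
      · exact hh hv1
    · rw [Set.nonempty_iff_ne_empty]
      intro he
      exact hG (Or.inr (Or.inr ⟨D z, hz, Set.Subset.antisymm (Set.sdiff_eq_empty.1 he) hh⟩))
    · obtain ⟨v, hv, hvG⟩ := Set.not_subset.1 (hR z hz).1
      rw [mR] at hv
      refine ⟨v, Prod.ext hv ?_, fun h1 => hvG h1.1⟩
      by_contra h1
      exact hvG (hh h1)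
    · ext w
      constructor
      · intro hw
        by_cases h1 : w ∈ toSet π (D z)
        · exact Or.inl h1
        · exact Or.inr ⟨hw, h1⟩
      · rintro (h1 | h1)
        · exact hh h1
        · exact h1.1

/-- the exceptional candidates -/
noncomputable def excF (n : ℕ) (π : Fin n → ℕ × ℕ) (m : ℕ) : Finset (Set (Fin n)) := by
  classical
  exact (Finset.range m).biUnion fun z =>
    ((Finset.univ.filter fun e => π e = (z, z)).powerset).biUnion fun Y =>
      {toSet π (R z) \ (Y : Set (Fin n)), toSet π (S z) ∪ (Y : Set (Fin n)),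
        toSet π (C z) \ (Y : Set (Fin n)), toSet π (D z) ∪ (Y : Set (Fin n))}

theorem card_excF {n : ℕ} {π : Fin n → ℕ × ℕ} {m : ℕ}
    (hc : ∀ z < m, (Finset.univ.filter fun e => π e = (z, z)).card ≤ 4) :
    (excF n π m).card ≤ m * 64 := by
  classical
  unfold excF
  refine (Finset.card_biUnion_le_card_mul _ _ 64 fun z hz => ?_).trans (by simp)
  refine (Finset.card_biUnion_le_card_mul _ _ 4 fun Y _ => Finset.card_le_four).trans ?_
  rw [Finset.card_powerset]
  have h1 := hc z (Finset.mem_range.1 hz)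
  have h2 : 2 ^ (Finset.univ.filter fun e => π e = (z, z)).card ≤ 2 ^ 4 :=
    Nat.pow_le_pow_right (by norm_num) h1
  omega

theorem mem_excF {n : ℕ} {π : Fin n → ℕ × ℕ} {m : ℕ} (h : Grid π m m)
    (hs : ∀ z w, π z = π w → (π z).1 ≠ (π z).2 → z = w)
    {G : Set (Fin n)} (hG : G ∉ Fam π m m) (hE : Exc π m m G) : G ∈ excF n π m := by
  classical
  obtain ⟨z, hz, Y, hY, -, -, hGY⟩ := exc_struct h hs hG hE
  unfold excF
  rw [Finset.mem_biUnion]
  refine ⟨z, Finset.mem_range.2 hz, ?_⟩
  rw [Finset.mem_biUnion]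
  refine ⟨Y.toFinite.toFinset, ?_, ?_⟩
  · rw [Finset.mem_powerset]
    intro e he
    rw [Set.Finite.mem_toFinset] at he
    exact Finset.mem_filter.2 ⟨Finset.mem_univ _, hY e he⟩
  · simp only [Finset.mem_insert, Finset.mem_singleton, Set.Finite.coe_toFinset]
    exact hGY

theorem upper_of_grid {n : ℕ} {π : Fin n → ℕ × ℕ} {m : ℕ} (h : Grid π m m)
    (hs0 : ∀ z w, π z = π w → ((π z).1 = 0 ∨ (π z).2 = 0) → z = w)
    (hs : ∀ z w, π z = π w → (π z).1 ≠ (π z).2 → z = w)
    (hc : ∀ z < m, (Finset.univ.filter fun e => π e = (z, z)).card ≤ 4) :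
    satNumber 2 n Nine ≤ 68 * m + 6 := by
  classical
  obtain ⟨F, hF1, hF2, hF3⟩ := exists_completion (P := Nine) (Fam π m m)
    (excF n π m : Set (Set (Fin n))) (fam_free h) (fun G hG hGE => by
      rcases forms_or_exc h hs0 hG with h1 | h1
      · exact h1
      · exact absurd (mem_excF h hs hG h1) hGE)
  refine (satNumber_le hF3).trans ?_
  have h1 : F ⊆ ((FamF π m m ∪ excF n π m : Finset (Set (Fin n))) : Set (Set (Fin n))) := by
    rw [Finset.coe_union]
    exact hF2.trans (Set.union_subset_union_left _ Fam_sub_FamF)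
  have h2 := Set.ncard_le_ncard h1 (Finset.finite_toSet _)
  rw [Set.ncard_coe_finset] at h2
  have h3 := Finset.card_union_le (FamF π m m) (excF n π m)
  have h4 := card_FamF (π := π) (m := m) (m' := m)
  have h5 := card_excF hc
  omega

theorem upper_of_bij {n : ℕ} {π : Fin n → ℕ × ℕ} {m : ℕ} (h : Grid π m m)
    (hs : ∀ z w, π z = π w → z = w) : satNumber 2 n Nine ≤ 4 * m + 6 := by
  have hsat : IsSaturated Nine (Fam π m m) := by
    refine ⟨fam_free h, fun G hG => ?_⟩
    rcases forms_or_exc h (fun z w hzw _ => hs z w hzw) hG with h1 | h1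
    · exact h1
    · exfalso
      obtain ⟨z, -, Y, hY, ⟨v, hv⟩, ⟨w, hw, hwY⟩, -⟩ :=
        exc_struct h (fun z w hzw _ => hs z w hzw) hG h1
      exact hwY (hs v w ((hY v hv).trans hw.symm) ▸ hv)
  refine (satNumber_le hsat).trans ?_
  have h2 := Set.ncard_le_ncard (Fam_sub_FamF (π := π) (m := m) (m' := m))
    (Finset.finite_toSet _)
  rw [Set.ncard_coe_finset] at h2
  have h4 := card_FamF (π := π) (m := m) (m' := m)
  omega

end Pool.Agent.Saturation
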